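import Pool.Agent.TH880.NB.LimR
import Pool.Agent.TH181.Nag.Move

/-! Asymptotic independence for all square classes, on every weighted plane `P(1, 1, M)`. -/

namespace Pool.Agent.TH880.NB

open Finset Pool.Agent.TH176.Nag Pool.Agent.TH181.NagM

/-- asymptotic independence for `n` points and triangles of the shape `(μ, ν)` -/
def PA (n : ℕ) (μ ν : ℝ) : Prop := AS n (√n * √(μ + ν)) μ ν

theorem PA.closed {n : ℕ} (hn : 1 ≤ n) : Closed (PA n) where
  mirror {μ ν} h := by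
    unfold PA at h ⊢
    rw [add_comm ν μ] at h
    exact h.mirror
  shear {μ ν} k h := by
    unfold PA at h ⊢
    rw [show μ + (k : ℝ) + (ν - k) = μ + ν by ring] at h
    exact h.shear k
  stepA {μ ν} x y hc hx h1 h2 hn' h := by
    unfold PA at h ⊢
    obtain ⟨u, v, huv⟩ := hc
    have hX : 0 ≤ (y : ℝ) + x * μ := by linarith
    have hs : 0 < √(μ + ν) := Real.sqrt_pos.2 hn'
    have hss : √(μ + ν) * √(μ + ν) = μ + ν := Real.mul_self_sqrt hn'.le
    have e : (x : ℝ) * (x * μ + y) + (y - x * ν) * (x * μ + y) / (μ + ν) =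
        ((y + x * μ) / √(μ + ν)) ^ 2 := by
      rw [div_pow, Real.sq_sqrt hn'.le]
      field_simp
      ring
    refine AS.regA x y u v (by linarith) hx h1 h2 hn' ?_ rfl ?_ h
    · rw [e, Real.sqrt_sq (by positivity)]
      calc √n * ((y + x * μ) / √(μ + ν)) * (μ + ν) =
          √n * ((y + x * μ) / √(μ + ν)) * (√(μ + ν) * √(μ + ν)) := by rw [hss]
        _ = (y + x * μ) * (√n * √(μ + ν)) := by field_simp
    · field_simp
      ring
  stepC {μ ν} x y hc hx h1 h2 h := by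
    unfold PA at h ⊢
    obtain ⟨u, v, huv⟩ := hc
    have hx' : (0 : ℝ) ≤ x := by exact_mod_cast hx
    have e : (x : ℝ) * (x * μ + y) + x * (x * ν - y) = x ^ 2 * (μ + ν) := by ring
    refine AS.regC x y u v (by linarith) hx h1 h2 ?_ rfl rfl h
    rw [e, Real.sqrt_mul (by positivity), Real.sqrt_sq hx']
    ring
  lim {M} hM {ω} hω hω2 h := by
    unfold PA at h ⊢
    have hM0 : (0 : ℝ) < M := by exact_mod_cast hM
    have hn0 : (0 : ℝ) < n := by exact_mod_cast hn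
    have hsM : 0 < √(M : ℝ) := Real.sqrt_pos.2 hM0
    have hsn : 0 < √(n : ℝ) := Real.sqrt_pos.2 hn0
    have e1 : (1 : ℝ) / M + (ω ^ 2 - 1) / M = (ω / √M) ^ 2 := by
      rw [div_pow, Real.sq_sqrt hM0.le]; ring
    rw [e1, Real.sqrt_sq (by positivity)] at h
    have e2 : √(n : ℝ) * (ω / √M) = √n / √M * ω := by ring
    rw [e2] at h
    have h2 := AS.limit hM hω hω2 (c := √n / √M) (by positivity) h
    have e3 : (M : ℝ) * (√n / √M) = √n * √(0 + M) := by
      rw [zero_add]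
      have : (M : ℝ) = √M * √M := (Real.mul_self_sqrt hM0.le).symm
      calc (M : ℝ) * (√n / √M) = (√M * √M) * (√n / √M) := by rw [← this]
        _ = √n * √M := by field_simp
    rwa [e3] at h2

theorem PA_cls {M D : ℕ} (hM : 1 ≤ M) (hD : 1 ≤ D) :
    ∃ t0 : ℕ, 1 ≤ t0 ∧ ∀ t : ℕ, t0 ≤ t → PA (t ^ 2 * D) 0 M := by
  obtain ⟨t0, h0, h⟩ := Mv_cls hM hD
  refine ⟨t0, h0, fun t ht => ?_⟩
  have hn : 1 ≤ t ^ 2 * D := by
    have : 1 ≤ t := h0.trans ht
    have : 1 ≤ t ^ 2 := Nat.one_le_pow _ _ this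
    exact Nat.one_le_iff_ne_zero.2 (by positivity)
  refine (h t ht).closed (PA.closed hn) ?_
  unfold PA
  have e : ((t ^ 2 * D : ℕ) : ℝ) = (t : ℝ) ^ 2 * D := by push_cast; ring
  have e2 : √((t ^ 2 * D : ℕ) : ℝ) * √(0 + (t : ℝ) ^ 2 * D) = ((t ^ 2 * D : ℕ) : ℝ) := by
    rw [zero_add, ← e]
    exact Real.mul_self_sqrt (Nat.cast_nonneg _)
  rw [e2]
  exact AS.base _ le_rfl (by positivity) (by rw [zero_add, e])

end Pool.Agent.TH880.NB
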