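import Pool.Agent.TH176.Nag.Stair

/-! Ranks of the conditions imposed by torus points with multiplicities on the span of a set of
monomials, and the lifting of ranks from a field to its Laurent series. -/

namespace Pool.Agent.TH880.NB

open Finset Pool.Agent.TH176.Nag

variable {ι : Type} {w : ι → ℕ}

/-- some `N` exponents in `S` carry no nonzero Laurent polynomial with the multiplicities `w` at
some points of the torus: the conditions have rank at least `N` on the span of `S` -/
def Rk (w : ι → ℕ) (S : Set (ℤ × ℤ)) (N : ℕ) : Prop :=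
  ∃ T : Finset (ℤ × ℤ), (↑T : Set (ℤ × ℤ)) ⊆ S ∧ T.card = N ∧ Emp w (↑T : Set (ℤ × ℤ))

theorem Rk.mono {S S' : Set (ℤ × ℤ)} {N : ℕ} (h : Rk w S N) (hS : S ⊆ S') : Rk w S' N := by
  obtain ⟨T, h1, h2, h3⟩ := h
  exact ⟨T, h1.trans hS, h2, h3⟩

section ker
variable {K : Type} [Field K]

theorem pr_smul_left (c : K) (f : (ℤ × ℤ) →₀ K) (x y : K) (P : K × K → K) :
    pr (c • f) x y P = c * pr f x y P := by
  unfold pr
  rw [Finsupp.sum_smul_index (by simp), Finsupp.mul_sum]
  apply Finsupp.sum_congr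
  intro m _
  ring

/-- the Laurent polynomials with the multiplicities `w` -/
def Kr (w : ι → ℕ) (x y : ι → K) : Submodule K ((ℤ × ℤ) →₀ K) where
  carrier := {f | ∀ i, LM f (x i) (y i) (w i)}
  add_mem' {f g} hf hg := fun i P hP => by
    rw [pr_add_left, hf i P hP, hg i P hP, add_zero]
  zero_mem' := fun i P _ => pr_zero_left _ _ P
  smul_mem' c f hf := fun i P hP => by
    rw [pr_smul_left, hf i P hP, mul_zero]

theorem mem_Kr {x y : ι → K} {f : (ℤ × ℤ) →₀ K} :
    f ∈ Kr w x y ↔ ∀ i, LM f (x i) (y i) (w i) := Iff.rfl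

theorem Rk_of_vectors [CharZero K] {x y : ι → K} (hx : ∀ i, x i ≠ 0) (hy : ∀ i, y i ≠ 0)
    {S : Set (ℤ × ℤ)} {J : Type} [Fintype J] (v : J → ((ℤ × ℤ) →₀ K))
    (hv : ∀ j, (↑(v j).support : Set (ℤ × ℤ)) ⊆ S)
    (hli : ∀ c : J → K, (∀ i, LM (∑ j, c j • v j) (x i) (y i) (w i)) → c = 0) :
    Rk w S (Fintype.card J) := by
  classical
  let mk := (Kr w x y).mkQ
  have hmk : ∀ f, mk f = 0 ↔ f ∈ Kr w x y := fun f => Submodule.Quotient.mk_eq_zero _
  have hli1 : LinearIndependent K (fun j => mk (v j)) := by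
    rw [Fintype.linearIndependent_iff]
    intro c hc
    have h1 : mk (∑ j, c j • v j) = 0 := by
      rw [map_sum, ← hc]
      exact sum_congr rfl fun j _ => by rw [map_smul]
    rw [hmk, mem_Kr] at h1
    have h2 := hli c h1
    intro j
    rw [h2]; rfl
  let S0 : Finset (ℤ × ℤ) := univ.biUnion fun j => (v j).support
  let u : S0 → ((ℤ × ℤ) →₀ K) ⧸ Kr w x y := fun m => mk (Finsupp.single (m : ℤ × ℤ) 1)
  have hle : Submodule.span K (Set.range fun j => mk (v j)) ≤ Submodule.span K (Set.range u) := by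
    rw [Submodule.span_le]
    rintro _ ⟨j, rfl⟩
    have h1 : v j = ∑ m ∈ (v j).support, (v j) m • Finsupp.single m (1 : K) := by
      conv_lhs => rw [← Finsupp.sum_single (v j)]
      unfold Finsupp.sum
      exact sum_congr rfl fun m _ => by rw [Finsupp.smul_single, smul_eq_mul, mul_one]
    simp only [SetLike.mem_coe]
    rw [h1, map_sum]
    refine Submodule.sum_mem _ fun m hm => ?_
    rw [map_smul]
    refine Submodule.smul_mem _ _ (Submodule.subset_span ⟨⟨m, ?_⟩, rfl⟩)
    exact mem_biUnion.2 ⟨j, mem_univ _, hm⟩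
  obtain ⟨κ, a, ha, hsp, hli2⟩ := exists_linearIndependent' K u
  have hfin : Finite κ := Finite.of_injective a ha
  have : Fintype κ := Fintype.ofFinite κ
  have hcard : Fintype.card J ≤ Fintype.card κ := by
    rw [← finrank_span_eq_card hli1, ← finrank_span_eq_card hli2, hsp]
    have : Module.Finite K (Submodule.span K (Set.range u)) :=
      Module.Finite.span_of_finite K (Set.finite_range u)
    exact Submodule.finrank_mono hle
  obtain ⟨s, -, hs⟩ := Finset.exists_subset_card_eq (s := (univ : Finset κ)) (n := Fintype.card J)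
    (by rw [card_univ]; exact hcard)
  have hinj : Function.Injective fun k : κ => ((a k : S0) : ℤ × ℤ) :=
    fun k k' h => ha (Subtype.ext h)
  refine ⟨s.image fun k => ((a k : S0) : ℤ × ℤ), ?_, ?_, ?_⟩
  · intro m hm
    rw [mem_coe, mem_image] at hm
    obtain ⟨k, -, rfl⟩ := hm
    obtain ⟨j, -, hj⟩ := mem_biUnion.1 (a k).2
    exact hv j hj
  · rw [card_image_of_injective _ hinj, hs]
  · refine ⟨K, inferInstance, inferInstance, x, y, hx, hy, fun f hfT hf => ?_⟩
    have h1 : f = ∑ k ∈ s, f (a k) • Finsupp.single ((a k : S0) : ℤ × ℤ) (1 : K) := by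
      have h2 : f = ∑ m ∈ s.image (fun k => ((a k : S0) : ℤ × ℤ)), f m • Finsupp.single m (1 : K) := by
        conv_lhs => rw [← Finsupp.sum_single f]
        rw [Finsupp.sum_of_support_subset f (s := s.image fun k => ((a k : S0) : ℤ × ℤ))
          (by intro m hm; exact hfT hm) _ (by simp)]
        exact sum_congr rfl fun m _ => by rw [Finsupp.smul_single, smul_eq_mul, mul_one]
      rw [sum_image (fun k _ k' _ h => hinj h)] at h2
      exact h2
    have h3 : ∑ k ∈ s, f (a k) • (u ∘ a) k = 0 := by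
      have h4 := (hmk f).2 (mem_Kr.2 hf)
      rw [h1, map_sum] at h4
      rw [← h4]
      exact sum_congr rfl fun k _ => by rw [map_smul]; rfl
    have h5 := linearIndependent_iff'.1 hli2 s _ h3
    rw [h1]
    exact sum_eq_zero fun k hk => by rw [h5 k hk, zero_smul]

end ker

section lift
variable {K : Type} [Field K]

theorem coeff_mul_low {a b : LaurentSeries K} {n : ℤ} (ha : ∀ k < n, a.coeff k = 0)
    (hb : ∀ k < 0, b.coeff k = 0) : (a * b).coeff n = a.coeff n * b.coeff 0 := by
  rw [HahnSeries.coeff_mul]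
  rw [Finset.sum_eq_single (n, 0)]
  · rintro ⟨p, q⟩ hpq hne
    rw [mem_addAntidiagonal] at hpq
    obtain ⟨h1, h2, h3⟩ := hpq
    simp only at h1 h2 h3
    exfalso
    have hp : n ≤ p := by
      by_contra h
      exact h1 (ha p (not_le.1 h))
    have hq : 0 ≤ q := by
      by_contra h
      exact h2 (hb q (not_le.1 h))
    apply hne
    ext <;> simp <;> omega
  · intro h
    rw [mem_addAntidiagonal] at h
    by_contra hne
    apply h
    refine ⟨?_, ?_, by simp⟩
    · simp only [HahnSeries.mem_support]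
      exact left_ne_zero_of_mul hne
    · simp only [HahnSeries.mem_support]
      exact right_ne_zero_of_mul hne

/-- lifting of ranks from a field to its Laurent series -/
theorem Rk_lift [CharZero K] {x y : ι → K} {X Y : ι → LaurentSeries K} (hX : ∀ i, X i ≠ 0)
    (hY : ∀ i, Y i ≠ 0) (T : Finset (ℤ × ℤ))
    (hT : ∀ f : (ℤ × ℤ) →₀ K, (↑f.support : Set (ℤ × ℤ)) ⊆ ↑T →
      (∀ i, LM f (x i) (y i) (w i)) → f = 0)
    (Ψ : ((ℤ × ℤ) →₀ LaurentSeries K) →ₗ[LaurentSeries K] ((ℤ × ℤ) →₀ LaurentSeries K))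
    (S : Set (ℤ × ℤ))
    (hΨ : ∀ f : (ℤ × ℤ) →₀ LaurentSeries K, (↑f.support : Set (ℤ × ℤ)) ⊆ S →
      (∀ i, LM f (X i) (Y i) (w i)) → ∀ i, LM (Ψ f) (cst (x i)) (cst (y i)) (w i))
    (hlift : ∀ m ∈ T, ∃ f : (ℤ × ℤ) →₀ LaurentSeries K, (↑f.support : Set (ℤ × ℤ)) ⊆ S ∧
      ∀ m', ∀ k ≤ (0 : ℤ), (Ψ f m').coeff k = if m' = m ∧ k = 0 then 1 else 0) :
    Rk w S T.card := by
  classical
  choose! F hFS hF using hlift
  have hcoe := Fintype.card_coe T
  rw [← hcoe]
  refine Rk_of_vectors hX hY (J := T) (fun j => F j) (fun j => hFS j j.2) ?_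
  intro c hc
  by_contra hne
  have hsupp : (↑(∑ j : T, c j • F j).support : Set (ℤ × ℤ)) ⊆ S := by
    intro m hm
    rw [mem_coe, Finsupp.mem_support_iff, Finsupp.coe_finsetSum, Finset.sum_apply] at hm
    obtain ⟨j, -, hj⟩ := exists_ne_zero_of_sum_ne_zero hm
    apply hFS j j.2
    rw [mem_coe, Finsupp.mem_support_iff]
    intro h
    apply hj
    rw [Finsupp.smul_apply, h, smul_zero]
  have hLM := hΨ _ hsupp hc
  let g : (ℤ × ℤ) →₀ LaurentSeries K := ∑ j : T, Finsupp.single (j : ℤ × ℤ) (c j)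
  have hgT : ∀ j : T, g j = c j := by
    intro j
    simp only [g, Finsupp.coe_finsetSum, Finset.sum_apply]
    rw [sum_eq_single j]
    · simp
    · intro j' _ hj'
      rw [Finsupp.single_apply, if_neg]
      intro h
      exact hj' (Subtype.ext h)
    · intro h; exact absurd (mem_univ _) h
  have hgn : ∀ m, m ∉ T → g m = 0 := by
    intro m hm
    simp only [g, Finsupp.coe_finsetSum, Finset.sum_apply]
    apply sum_eq_zero
    intro j _
    rw [Finsupp.single_apply, if_neg]
    intro h
    exact hm (h ▸ j.2)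
  have hg0 : g ≠ 0 := by
    intro h
    apply hne
    funext j
    rw [← hgT j, h]; rfl
  obtain ⟨n, hn1, hn2, -⟩ := exists_lead hg0
  apply hn1
  have hkey : (Ψ (∑ j : T, c j • F j)).mapRange (fun u => u.coeff n) rfl =
      g.mapRange (fun u => u.coeff n) rfl := by
    ext m'
    simp only [Finsupp.mapRange_apply]
    rw [map_sum, Finsupp.coe_finsetSum, Finset.sum_apply, HahnSeries.coeff_sum]
    have h1 : ∀ j : T, ((Ψ (c j • F j)) m').coeff n = if m' = j then (c j).coeff n else 0 := by
      intro j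
      rw [map_smul, Finsupp.smul_apply, smul_eq_mul, coeff_mul_low]
      · rw [hF j j.2 m' 0 le_rfl]
        by_cases h : m' = (j : ℤ × ℤ)
        · rw [if_pos ⟨h, rfl⟩, if_pos h, mul_one]
        · rw [if_neg (fun h' => h h'.1), if_neg h, mul_zero]
      · intro k hk
        have := hn2 j k hk
        rwa [hgT] at this
      · intro k hk
        rw [hF j j.2 m' k hk.le, if_neg]
        rintro ⟨-, h⟩
        omega
    rw [sum_congr rfl fun j _ => h1 j]
    by_cases hm' : m' ∈ T
    · rw [sum_eq_single ⟨m', hm'⟩]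
      · rw [if_pos rfl]
        have := hgT ⟨m', hm'⟩
        simp only at this
        rw [this]
      · intro j _ hj
        rw [if_neg]
        intro h
        exact hj (Subtype.ext h.symm)
      · intro h; exact absurd (mem_univ _) h
    · rw [hgn m' hm', HahnSeries.coeff_zero]
      apply sum_eq_zero
      intro j _
      rw [if_neg]
      intro h
      exact hm' (h ▸ j.2)
  apply hT
  · intro m hm
    by_contra hmT
    rw [mem_coe, Finsupp.mem_support_iff] at hm
    apply hm
    rw [Finsupp.mapRange_apply, hgn m hmT, HahnSeries.coeff_zero]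
  · intro i
    rw [← hkey]
    exact LM_coeff (hLM i) n

end lift

end Pool.Agent.TH880.NB
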