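import Pool.Agent.TH15.NagEmpGeneric

/-! Emptiness at one configuration implies emptiness at some points over every field of
characteristic zero. -/

namespace Pool.Agent.TH880.NB

open Finset Pool.Agent.TH176.Nag

theorem Emp_point {ι : Type} [Finite ι] {w : ι → ℕ} {S : Set (ℤ × ℤ)} (hfin : S.Finite)
    (hpos : ∀ m ∈ S, 0 ≤ m.1 ∧ 0 ≤ m.2) (h : Emp w S) (L : Type) [Field L] [CharZero L] :
    ∃ x y : ι → L, (∀ i, x i ≠ 0) ∧ (∀ i, y i ≠ 0) ∧
    ∀ f : (ℤ × ℤ) →₀ L, (↑f.support : Set (ℤ × ℤ)) ⊆ S → (∀ i, LM f (x i) (y i) (w i)) → f = 0 := by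
  classical
  obtain ⟨K, _, _, X, Y, hX, hY, hK⟩ := h
  have : Fintype S := hfin.fintype
  have : Fintype ι := Fintype.ofFinite ι
  -- rows
  let R := {r : ι × ℕ × ℕ // r.2.1 + r.2.2 < w r.1}
  -- the polynomial matrix
  let P : R → S → MvPolynomial (ι × Fin 2) ℚ := fun r m =>
    MvPolynomial.C (((m : ℤ × ℤ).1 : ℚ) ^ r.1.2.1 * ((m : ℤ × ℤ).2 : ℚ) ^ r.1.2.2) *
      (MvPolynomial.X (r.1.1, 0) ^ (m : ℤ × ℤ).1.toNat * MvPolynomial.X (r.1.1, 1) ^ (m : ℤ × ℤ).2.toNat)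
  -- evaluation
  have heval : ∀ {L : Type} [Field L] [CharZero L] (u v : ι → L) (r : R) (m : S),
      MvPolynomial.aeval (fun q : ι × Fin 2 => ![u q.1, v q.1] q.2) (P r m) =
        (((m : ℤ × ℤ).1 : L) ^ r.1.2.1 * ((m : ℤ × ℤ).2 : L) ^ r.1.2.2) *
          (u r.1.1 ^ (m : ℤ × ℤ).1 * v r.1.1 ^ (m : ℤ × ℤ).2) := by
    intro L _ _ u v r m
    obtain ⟨h1, h2⟩ := hpos m m.2
    simp only [P, map_mul, map_pow, MvPolynomial.aeval_X, MvPolynomial.aeval_C]
    have e1 : u r.1.1 ^ (m : ℤ × ℤ).1 = u r.1.1 ^ (m : ℤ × ℤ).1.toNat := by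
      conv_lhs => rw [← Int.toNat_of_nonneg h1]
      rw [zpow_natCast]
    have e2 : v r.1.1 ^ (m : ℤ × ℤ).2 = v r.1.1 ^ (m : ℤ × ℤ).2.toNat := by
      conv_lhs => rw [← Int.toNat_of_nonneg h2]
      rw [zpow_natCast]
    rw [e1, e2]
    simp
  -- linear equations
  have hpr : ∀ {L : Type} [Field L] [CharZero L] (u v : L) (f : (ℤ × ℤ) →₀ L),
      (↑f.support : Set (ℤ × ℤ)) ⊆ S → ∀ a b : ℕ,
      pr f u v (fun q : L × L => q.1 ^ a * q.2 ^ b) =
        ∑ m : S, (((m : ℤ × ℤ).1 : L) ^ a * ((m : ℤ × ℤ).2 : L) ^ b) *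
          (u ^ (m : ℤ × ℤ).1 * v ^ (m : ℤ × ℤ).2) * f m := by
    intro L _ _ u v f hf a b
    unfold pr
    rw [Finsupp.sum_of_support_subset f (s := S.toFinset) (fun m hm => by
      rw [Set.mem_toFinset]; exact hf hm) _ (by intro m _; ring)]
    rw [Finset.sum_subtype S.toFinset (p := fun m => m ∈ S) (fun m => Set.mem_toFinset)]
    refine Finset.sum_congr (by congr 1) fun m _ => ?_
    ring
  -- the rows
  obtain ⟨a, ha⟩ := Pool.Agent.TH15.Nag.exists_rows (fun (r : R) (m : S) =>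
      (((m : ℤ × ℤ).1 : K) ^ r.1.2.1 *
      ((m : ℤ × ℤ).2 : K) ^ r.1.2.2) * (X r.1.1 ^ (m : ℤ × ℤ).1 * Y r.1.1 ^ (m : ℤ × ℤ).2)) (by
    intro c hc
    let g : ℤ × ℤ → K := fun m => if hm : m ∈ S then c ⟨m, hm⟩ else 0
    let f : (ℤ × ℤ) →₀ K := Finsupp.onFinset S.toFinset g (by
      intro m hm
      rw [Set.mem_toFinset]
      by_contra hn
      exact hm (dif_neg hn))
    have hfS : (↑f.support : Set (ℤ × ℤ)) ⊆ S := by
      intro m hm
      by_contra hn
      have : f m ≠ 0 := Finsupp.mem_support_iff.1 hm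
      exact this (dif_neg hn)
    have hfc : ∀ m : S, f m = c m := fun m => dif_pos m.2
    have hf0 : f = 0 := by
      apply hK f hfS
      intro i
      apply LM_of_mono
      intro p q hpq
      rw [hpr (X i) (Y i) f hfS p q]
      rw [← hc ⟨(i, p, q), hpq⟩]
      refine Finset.sum_congr rfl fun m _ => ?_
      rw [hfc]
    funext m
    rw [← hfc, hf0]
    rfl)
  -- the polynomial minor
  let D : MvPolynomial (ι × Fin 2) ℚ := (Matrix.of fun j m => P (a j) m).det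
  have hD : ∀ {L : Type} [Field L] [CharZero L] (u v : ι → L),
      MvPolynomial.aeval (fun q : ι × Fin 2 => ![u q.1, v q.1] q.2) D =
        (Matrix.of fun (j : S) (m : S) => (((m : ℤ × ℤ).1 : L) ^ (a j).1.2.1 *
          ((m : ℤ × ℤ).2 : L) ^ (a j).1.2.2) * (u (a j).1.1 ^ (m : ℤ × ℤ).1 *
          v (a j).1.1 ^ (m : ℤ × ℤ).2)).det := by
    intro L _ _ u v
    rw [AlgHom.map_det]
    congr 1
    ext j m
    exact heval u v (a j) m
  have hDne : D ≠ 0 := by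
    intro h0
    apply ha
    rw [← hD X Y, h0, map_zero]
  -- a rational point
  have hD' : D * ∏ q : ι × Fin 2, MvPolynomial.X q ≠ 0 :=
    mul_ne_zero hDne (Finset.prod_ne_zero_iff.2 fun q _ => MvPolynomial.X_ne_zero q)
  obtain ⟨u, hu⟩ : ∃ u : ι × Fin 2 → ℚ, MvPolynomial.eval u (D * ∏ q, MvPolynomial.X q) ≠ 0 := by
    by_contra hne
    push Not at hne
    exact hD' (MvPolynomial.funext fun u => by rw [hne u, map_zero])
  rw [map_mul, map_prod] at hu
  have hu1 := left_ne_zero_of_mul hu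
  have hu2 : ∀ q, u q ≠ 0 := by
    intro q
    have := Finset.prod_ne_zero_iff.1 (right_ne_zero_of_mul hu) q (Finset.mem_univ q)
    rwa [MvPolynomial.eval_X] at this
  let x : ι → L := fun i => algebraMap ℚ L (u (i, 0))
  let y : ι → L := fun i => algebraMap ℚ L (u (i, 1))
  have hDC : MvPolynomial.aeval (fun q : ι × Fin 2 => ![x q.1, y q.1] q.2) D ≠ 0 := by
    have e : (fun q : ι × Fin 2 => (![x q.1, y q.1] : Fin 2 → L) q.2) =
        fun q => algebraMap ℚ L (u q) := by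
      funext q
      obtain ⟨i, j⟩ := q
      fin_cases j <;> rfl
    rw [e, ← Function.comp_def, MvPolynomial.aeval_algebraMap_apply]
    rw [MvPolynomial.aeval_eq_eval]
    intro h0
    exact hu1 ((map_eq_zero _).1 h0)
  rw [hD x y] at hDC
  refine ⟨x, y, fun i => ?_, fun i => ?_, ?_⟩
  · exact (map_ne_zero _).2 (hu2 _)
  · exact (map_ne_zero _).2 (hu2 _)
  intro f hfS hfL
  have hvec : (fun m : S => f m) = 0 := by
    apply Matrix.eq_zero_of_mulVec_eq_zero hDC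
    funext j
    have h1 := hpr (x (a j).1.1) (y (a j).1.1) f hfS (a j).1.2.1 (a j).1.2.2
    rw [hfL (a j).1.1 _ (mem_PF_mono (a j).2)] at h1
    rw [Matrix.mulVec, dotProduct]
    exact h1.symm
  ext m
  by_cases hm : m ∈ S
  · exact congrFun hvec ⟨m, hm⟩
  · by_contra hn
    exact hm (hfS (Finsupp.mem_support_iff.2 hn))

end Pool.Agent.TH880.NB
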