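import Pool.Agent.TH880.NB.Cls
import Pool.Agent.TH880.NB.Pt
import Pool.Agent.TH176.Nag.Main
import Pool.Agent.W607.Toric

/-! The toric input for surfaces: separation of jets by the monomials of a triangle. -/

namespace Pool.Agent.TH880.NB

open MvPolynomial Pool.Agent.TH176.Nag

/-- the exponent as a finitely supported function -/
noncomputable def ex (m : ℤ × ℤ) : Fin 2 →₀ ℕ := Finsupp.equivFunOnFinite.symm ![m.1.toNat, m.2.toNat]

theorem ex_zero (m : ℤ × ℤ) : ex m 0 = m.1.toNat := rfl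

theorem ex_one (m : ℤ × ℤ) : ex m 1 = m.2.toNat := rfl

theorem rk_of_Rk (L : Type) [Field L] [CharZero L] {n : ℕ} {w : Fin n → ℕ} {S : Set (ℤ × ℤ)} {N : ℕ}
    (hpos : ∀ m ∈ S, 0 ≤ m.1 ∧ 0 ≤ m.2) (h : Rk w S N) :
    Pool.Agent.H932R5.Rk (E := 1) L w {p | (((p 0 : ℕ) : ℤ), ((p 1 : ℕ) : ℤ)) ∈ S} N := by
  classical
  obtain ⟨T, hTS, hTN, hT⟩ := h
  have hTpos : ∀ m ∈ T, 0 ≤ m.1 ∧ 0 ≤ m.2 := fun m hm => hpos m (hTS hm)
  obtain ⟨x, y, hx, hy, hE⟩ := Emp_point T.finite_toSet hTpos hT L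
  let en : T ≃ Fin N := T.equivFinOfCardEq hTN
  have hex : ∀ m : T, (((ex m 0 : ℕ) : ℤ), ((ex m 1 : ℕ) : ℤ)) = (m : ℤ × ℤ) := by
    intro m
    have := hTpos m m.2
    rw [ex_zero, ex_one]
    ext
    · simp only; omega
    · simp only; omega
  have hexinj : ∀ i j : Fin N, ex (en.symm i) = ex (en.symm j) → i = j := by
    intro i j hij
    apply en.symm.injective
    apply Subtype.ext
    rw [← hex (en.symm i), ← hex (en.symm j), hij]
  refine ⟨fun i => ![x i, y i], fun i => monomial (ex (en.symm i)) 1, ?_, ?_⟩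
  · intro i
    rw [Pool.Agent.H932R5.mem_mspan]
    intro α hα
    rw [coeff_monomial] at hα
    have : ex (en.symm i) = α := by
      by_contra hne
      rw [if_neg hne] at hα
      exact hα rfl
    rw [← this]
    show (((ex (en.symm i) 0 : ℕ) : ℤ), ((ex (en.symm i) 1 : ℕ) : ℤ)) ∈ S
    rw [hex]
    exact hTS (en.symm i).2
  · intro c hc
    set p : MvPolynomial (Fin 2) L := ∑ i, c i • monomial (ex (en.symm i)) 1 with hp
    have hcoeff : ∀ α, coeff α p = ∑ i, if ex (en.symm i) = α then c i else 0 := by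
      intro α
      rw [hp, coeff_sum]
      refine Finset.sum_congr rfl fun i _ => ?_
      rw [coeff_smul, coeff_monomial, smul_eq_mul]
      split_ifs <;> simp
    have hcoeff2 : ∀ i, coeff (ex (en.symm i)) p = c i := by
      intro i
      rw [hcoeff, Finset.sum_eq_single i]
      · rw [if_pos rfl]
      · intro j _ hj
        rw [if_neg]
        intro h
        exact hj (hexinj _ _ h)
      · intro h; exact absurd (Finset.mem_univ _) h
    have hLM : ∀ i, LM (toL L p).coeff (x i) (y i) (w i) := fun i =>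
      LM_of_pt (hx i) (hy i) (P := ![x i, y i]) rfl rfl (Pool.Agent.H932R5.mem_Z.1 hc i)
    have h0 := hE (toL L p).coeff (by
      intro m hm
      have hm' : (toL L p).coeff m ≠ 0 := by simpa using hm
      rw [toL_coeff] at hm'
      obtain ⟨s, hs, hs'⟩ := Finset.exists_ne_zero_of_sum_ne_zero hm'
      have h1 : ((s 0 : ℤ), (s 1 : ℤ)) = m := by
        by_contra h; rw [if_neg h] at hs'; exact hs' rfl
      have h2 := mem_support_iff.1 hs
      rw [hcoeff] at h2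
      obtain ⟨i, -, hi⟩ := Finset.exists_ne_zero_of_sum_ne_zero h2
      have h3 : ex (en.symm i) = s := by
        by_contra h; rw [if_neg h] at hi; exact hi rfl
      rw [← h1, ← h3]
      rw [hex]
      exact (en.symm i).2) hLM
    have h1 := toL_eq_zero h0
    intro i
    rw [← hcoeff2 i, h1, coeff_zero]

/-- the toric input: separation of jets of order almost `E √r / √n` by the monomials of the
triangle `i + r l ≤ r E` -/
def Tor (r n : ℕ) (ε : ℝ) : Prop :=
  ∀ c : ℕ, ∃ E s : ℕ, 2 ≤ s ∧ ((E : ℝ) + c) * √r ≤ (1 + ε) * (√n * ((s : ℝ) - 1)) ∧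
    ∃ u : Fin n → Fin 2 → W607.K1, ∀ f : Fin n → MvPolynomial (Fin 2) W607.K1,
      ∃ G ∈ Submodule.span W607.K1 {P : MvPolynomial (Fin 2) W607.K1 |
          ∃ i l : ℕ, i + r * l + c ≤ r * E ∧ P = X 0 ^ i * X 1 ^ l},
        ∀ q, aeval (fun j => (X j + C (u q j) : MvPolynomial (Fin 2) W607.K1)) G - f q
          ∈ (W607.nn W607.K1) ^ s

theorem Tor.of_PA {r n : ℕ} (hr : 1 ≤ r) (hn : 1 ≤ n) (h : PA n 0 r) {ε : ℝ} (hε : 0 < ε) :
    Tor r n ε := by
  intro c
  have hr0 : (0 : ℝ) < r := by exact_mod_cast hr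
  have hn0 : (0 : ℝ) < n := by exact_mod_cast hn
  have hqr : 0 < √(r : ℝ) := Real.sqrt_pos.2 hr0
  have hqn : 0 < √(n : ℝ) := Real.sqrt_pos.2 hn0
  have hrr : √(r : ℝ) * √(r : ℝ) = r := Real.mul_self_sqrt hr0.le
  unfold PA at h
  rw [zero_add] at h
  obtain ⟨s1, hs1⟩ := h (ε * √n * √r / 2) (by positivity)
  obtain ⟨s2, hs2⟩ := exists_large (η := ε * √n / 2)
    (c := c / √r + (1 + c) * √r + (1 + ε) * √n) (by positivity)
  obtain ⟨s, hs⟩ : ∃ s, s = max (max s1 s2) 2 := ⟨_, rfl⟩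
  have hs1' := hs1 s (by rw [hs]; exact (le_max_left _ _).trans (le_max_left _ _)) 0
  have hs2' := hs2 s (by rw [hs]; exact (le_max_right _ _).trans (le_max_left _ _))
  have hs3 : 2 ≤ s := by rw [hs]; exact le_max_right _ _
  set B : ℝ := (√n * √r + ε * √n * √r / 2) * s with hB
  obtain ⟨E, hE⟩ : ∃ E : ℕ, E = ⌈(B + c) / r⌉₊ := ⟨_, rfl⟩
  have hB0 : 0 ≤ B := by positivity
  have hE1 : B + c ≤ r * E := by
    have : (B + c) / r ≤ E := by rw [hE]; exact Nat.le_ceil _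
    rw [div_le_iff₀ hr0] at this
    linarith
  have hE2 : (E : ℝ) ≤ (B + c) / r + 1 := by
    rw [hE]
    exact (Nat.ceil_lt_add_one (by positivity)).le
  refine ⟨E, s, hs3, ?_, ?_⟩
  · calc ((E : ℝ) + c) * √r ≤ ((B + c) / r + 1 + c) * √r := by gcongr
      _ = √n * s + ε * √n / 2 * s + (c / √r + (1 + c) * √r) := by
        have e1 : ((B + c) / r) * √r = (B + c) / √r := by
          rw [div_mul_eq_mul_div, div_eq_div_iff hr0.ne' hqr.ne', mul_assoc, hrr]
        have e2 : (B + c) / √r = √n * s + ε * √n / 2 * s + c / √r := by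
          rw [hB]; field_simp
        linear_combination e1 + e2
      _ ≤ (1 + ε) * (√n * ((s : ℝ) - 1)) := by linarith
  · have hpos : ∀ m ∈ Reg 0 (0 + (√n * √r + ε * √n * √r / 2) * s) 0 r, 0 ≤ m.1 ∧ 0 ≤ m.2 := by
      rintro m ⟨h1, h2, -⟩
      refine ⟨?_, h1⟩
      have : (0 : ℝ) ≤ m.1 := by linarith
      exact_mod_cast this
    obtain ⟨u, hu⟩ := W607.surj_of_rk (rk_of_Rk W607.K1 hpos hs1')
    refine ⟨u, fun f => ?_⟩
    obtain ⟨G, hG, hG'⟩ := hu f
    refine ⟨G, ?_, hG'⟩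
    refine (Submodule.span_le.2 ?_) hG
    rintro _ ⟨p, ⟨-, -, hp⟩, rfl⟩
    refine Submodule.subset_span ⟨p 0, p 1, ?_, ?_⟩
    · simp only at hp
      push_cast at hp
      have h9 : ((p 0 + r * p 1 + c : ℕ) : ℝ) ≤ ((r * E : ℕ) : ℝ) := by
        push_cast
        linarith
      exact_mod_cast h9
    · simp only
      rw [monomial_eq, C_1, one_mul, Finsupp.prod_fintype _ _ (fun i => pow_zero _),
        Fin.prod_univ_two]

/-- the toric input for all square classes -/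
theorem Tor_cls {r D : ℕ} (hr : 1 ≤ r) (hD : 1 ≤ D) :
    ∃ t0 : ℕ, 1 ≤ t0 ∧ ∀ t : ℕ, t0 ≤ t → ∀ ε : ℝ, 0 < ε → Tor r (t ^ 2 * D) ε := by
  obtain ⟨t0, h0, h⟩ := PA_cls hr hD
  refine ⟨t0, h0, fun t ht ε hε => Tor.of_PA hr ?_ (h t ht) hε⟩
  have : 1 ≤ t := h0.trans ht
  have : 1 ≤ t ^ 2 := Nat.one_le_pow _ _ this
  exact Nat.one_le_iff_ne_zero.2 (by positivity)

end Pool.Agent.TH880.NB
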