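import Pool.Agent.TH880.NB.FlatR
import Pool.Agent.TH819.NagA

/-! Flattening of triangles for ranks, and the asymptotic form. -/

namespace Pool.Agent.TH880.NB

open Finset Pool.Agent.TH176.Nag

variable {ι : Type} {w : ι → ℕ} {N : ℕ}

theorem Rk_regA {α β μ ν : ℝ} (x y u v : ℤ) (hdet : x * u + y * v = 1) (hx : 0 ≤ x)
    (h1 : 0 ≤ x * μ + y) (h2 : x * ν ≤ y) (hn : 0 < μ + ν) {α' β' μ' ν' : ℝ}
    (hα : α' = x * α) (hβ : β' * (μ + ν) = -(y - x * ν) * α + (y + x * μ) * β)
    (hμ : μ' = x * (x * μ + y)) (hν : ν' * (μ + ν) = (y - x * ν) * (y + x * μ))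
    (h : Rk w (Reg (α' + μ') (β' - ν') μ' ν') N) : Rk w (Reg α β μ ν) N := by
  refine Rk_flat x y u v hdet ?_ h
  rintro ⟨a, k⟩ ⟨hk, hl, hr⟩
  simp only at hk hl hr
  refine ⟨hk, ?_⟩
  have hk' : (0 : ℝ) ≤ k := by exact_mod_cast hk
  have hx' : (0 : ℝ) ≤ x := by exact_mod_cast hx
  have hdet' : (x : ℝ) * u + y * v = 1 := by exact_mod_cast hdet
  set X : ℝ := x * μ + y with hXdef
  set Y : ℝ := y - x * ν with hYdef
  have hY : 0 ≤ Y := by rw [hYdef]; linarith
  have hXY : X = x * (μ + ν) + Y := by rw [hXdef, hYdef]; ring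
  have hX : 0 < X := by
    rcases lt_or_eq_of_le h1 with h3 | h3
    · exact h3
    · exfalso
      have h4 : (x : ℝ) * (μ + ν) = 0 := by
        have : 0 ≤ (x : ℝ) * (μ + ν) := mul_nonneg hx' hn.le
        linarith
      have h5 : (x : ℝ) = 0 := (mul_eq_zero.1 h4).resolve_right hn.ne'
      have h6 : (y : ℝ) = 0 := by rw [hXdef, h5] at h3; linarith
      rw [h5, h6] at hdet'
      simp at hdet'
  set R : ℝ := u * a - μ * (v * a) - α with hRdef
  have I1 : X * (x * (k + 1) - v * a) ≤ x * R := by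
    have e : x * R - X * (x * (k + 1) - v * a) = a - (x * α + x * X * (k + 1)) := by
      rw [hRdef, hXdef]; linear_combination (a : ℝ) * hdet'
    have : x * α + x * X * (k + 1) ≤ a := by rw [hα, hμ] at hl; linarith
    linarith
  have I2 : X * (Y * (k + 1) + u * a + ν * (v * a) - β) ≤ Y * R := by
    have e : Y * R - X * (Y * (k + 1) + u * a + ν * (v * a) - β) =
        (μ + ν) * (β' - ν' - ν' * k - a) := by
      rw [hRdef]
      have e1 : X * (u * a + ν * (v * a)) - Y * (u * a - μ * (v * a)) = (μ + ν) * a := by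
        rw [hXdef, hYdef]; linear_combination ((μ + ν) * (a : ℝ)) * hdet'
      have e2 : β' * (μ + ν) = -Y * α + X * β := by rw [hβ, hXdef, hYdef]; ring
      have e3 : ν' * (μ + ν) = Y * X := by rw [hν, hXdef, hYdef]; ring
      linear_combination (-1 : ℝ) * e1 - e2 + (k + 1) * e3
    have : 0 ≤ (μ + ν) * (β' - ν' - ν' * k - a) := mul_nonneg hn.le (by linarith)
    linarith
  set b : ℤ := ⌊R / X⌋ - k with hb
  have hb1 : X * ((b : ℝ) + k) ≤ R := by
    have : (⌊R / X⌋ : ℝ) ≤ R / X := Int.floor_le _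
    rw [le_div_iff₀ hX] at this
    rw [hb]; push_cast; linarith
  have hb2 : R ≤ X * ((b : ℝ) + k + 1) := by
    have : R / X ≤ (⌊R / X⌋ : ℝ) + 1 := (Int.lt_floor_add_one _).le
    rw [div_le_iff₀ hX] at this
    rw [hb]; push_cast; linarith
  refine ⟨(u * a - y * b, v * a + x * b), by simp only; linear_combination a * hdet, fun j hj => ?_⟩
  have hj0 : (0 : ℝ) ≤ j := Nat.cast_nonneg j
  have hjk : (j : ℝ) ≤ k := by exact_mod_cast hj
  have C1 : 0 ≤ (v : ℝ) * a + x * b := by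
    have h3 : X * (x * (k + 1) - v * a) ≤ X * (x * ((b : ℝ) + k + 1)) := by
      calc X * (x * (k + 1) - v * a) ≤ x * R := I1
        _ ≤ x * (X * ((b : ℝ) + k + 1)) := mul_le_mul_of_nonneg_left hb2 hx'
        _ = _ := by ring
    have h4 := le_of_mul_le_mul_left h3 hX
    linarith
  have C3 : (u : ℝ) * a + ν * (v * a) - β ≤ Y * b := by
    have h3 : X * (Y * (k + 1) + u * a + ν * (v * a) - β) ≤ X * (Y * ((b : ℝ) + k + 1)) := by
      calc _ ≤ Y * R := I2
        _ ≤ Y * (X * ((b : ℝ) + k + 1)) := mul_le_mul_of_nonneg_left hb2 hY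
        _ = _ := by ring
    have h4 := le_of_mul_le_mul_left h3 hX
    linarith
  have hxj : 0 ≤ (x : ℝ) * j := mul_nonneg hx' hj0
  refine ⟨?_, ?_, ?_⟩
  · simp only
    have : (0 : ℝ) ≤ ((v * a + x * b + x * j : ℤ) : ℝ) := by push_cast; linarith
    exact_mod_cast this
  · simp only
    push_cast
    have h3 : X * (k - j) ≥ 0 := mul_nonneg hX.le (by linarith)
    have e : (u * a - y * b - y * j : ℝ) - (α + μ * (v * a + x * b + x * j)) =
        (R - X * ((b : ℝ) + k)) + X * (k - j) := by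
      rw [hRdef, hXdef]; ring
    linarith
  · simp only
    push_cast
    have h3 : 0 ≤ Y * j := mul_nonneg hY hj0
    have e : β - ν * (v * a + x * b + x * j) - (u * a - y * b - y * j : ℝ) =
        (Y * b - (u * a + ν * (v * a) - β)) + Y * j := by
      rw [hYdef]; ring
    linarith

theorem Rk_regC {α β μ ν : ℝ} (x y u v : ℤ) (hdet : x * u + y * v = 1) (hx : 0 ≤ x)
    (h1 : 0 ≤ x * μ + y) (h2 : (y : ℝ) ≤ x * ν) {α' β' μ' ν' : ℝ}
    (hα : α' = x * α) (hβ : β' = x * β)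
    (hμ : μ' = x * (x * μ + y)) (hν : ν' = x * (x * ν - y))
    (h : Rk w (Reg (α' + μ') (β' - ν') μ' ν') N) : Rk w (Reg α β μ ν) N := by
  refine Rk_flat x y u v hdet ?_ h
  rintro ⟨a, k⟩ ⟨hk, hl, hr⟩
  simp only at hk hl hr
  refine ⟨hk, ?_⟩
  have hk' : (0 : ℝ) ≤ k := by exact_mod_cast hk
  have hx' : (0 : ℝ) ≤ x := by exact_mod_cast hx
  have hdet' : (x : ℝ) * u + y * v = 1 := by exact_mod_cast hdet
  have hx0 : (0 : ℝ) < x := by
    rcases lt_or_eq_of_le hx' with h3 | h3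
    · exact h3
    · exfalso
      rw [← h3] at h1 h2 hdet'
      have h4 : (y : ℝ) = 0 := by linarith
      rw [h4] at hdet'
      simp at hdet'
  set X : ℝ := x * μ + y with hXdef
  set Z : ℝ := x * ν - y with hZdef
  have hZ : 0 ≤ Z := by rw [hZdef]; linarith
  set b : ℤ := ⌈-(v * a : ℝ) / x⌉ with hb
  have hb1 : -(v * a : ℝ) ≤ x * b := by
    have : -(v * a : ℝ) / x ≤ b := Int.le_ceil _
    rw [div_le_iff₀ hx0] at this
    linarith
  have hb2 : x * (b : ℝ) ≤ -(v * a) + x := by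
    have : (b : ℝ) ≤ -(v * a : ℝ) / x + 1 := (Int.ceil_lt_add_one _).le
    have h3 := mul_le_mul_of_nonneg_left this hx'
    have e : (x : ℝ) * (-(v * a : ℝ) / x + 1) = -(v * a) + x := by field_simp
    linarith
  refine ⟨(u * a - y * b, v * a + x * b), by simp only; linear_combination a * hdet, fun j hj => ?_⟩
  have hj0 : (0 : ℝ) ≤ j := Nat.cast_nonneg j
  have hjk : (j : ℝ) ≤ k := by exact_mod_cast hj
  have hxj : 0 ≤ (x : ℝ) * j := mul_nonneg hx' hj0
  have hxjk : (x : ℝ) * j ≤ x * k := mul_le_mul_of_nonneg_left hjk hx'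
  have hl' : x * α + x * X * (k + 1) ≤ a := by rw [hα, hμ] at hl; linarith
  have hr' : (a : ℝ) ≤ x * β - x * Z * (k + 1) := by rw [hβ, hν] at hr; linarith
  refine ⟨?_, ?_, ?_⟩
  · simp only
    have : (0 : ℝ) ≤ ((v * a + x * b + x * j : ℤ) : ℝ) := by push_cast; linarith
    exact_mod_cast this
  · simp only
    push_cast
    have h3 : X * (x * b + x * j) ≤ X * (-(v * a) + x + x * k) :=
      mul_le_mul_of_nonneg_left (by linarith) h1
    have e : x * ((u * a - y * b - y * j : ℝ) - (α + μ * (v * a + x * b + x * j))) =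
        a - (x * α + X * (x * (k + 1))) + (X * (-(v * a) + x + x * k) - X * (x * b + x * j)) := by
      rw [hXdef]; linear_combination (a : ℝ) * hdet'
    have h4 : 0 ≤ (x : ℝ) * ((u * a - y * b - y * j : ℝ) - (α + μ * (v * a + x * b + x * j))) := by
      rw [e]; linarith
    have h5 := nonneg_of_mul_nonneg_right h4 hx0
    linarith
  · simp only
    push_cast
    have h3 : Z * (x * b + x * j) ≤ Z * (-(v * a) + x + x * k) :=
      mul_le_mul_of_nonneg_left (by linarith) hZ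
    have e : x * (β - ν * (v * a + x * b + x * j) - (u * a - y * b - y * j : ℝ)) =
        (x * β - Z * (x * (k + 1)) - a) + (Z * (-(v * a) + x + x * k) - Z * (x * b + x * j)) := by
      rw [hZdef]; linear_combination (-(a : ℝ)) * hdet'
    have h4 : 0 ≤ (x : ℝ) * (β - ν * (v * a + x * b + x * j) - (u * a - y * b - y * j : ℝ)) := by
      rw [e]; linarith
    have h5 := nonneg_of_mul_nonneg_right h4 hx0
    linarith

theorem Rk_mirror {α β μ ν : ℝ} (h : Rk w (Reg (-β) (-α) ν μ) N) : Rk w (Reg α β μ ν) N := by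
  refine h.refl ?_
  intro m hm
  obtain ⟨h1, h2, h3⟩ := hm
  refine ⟨by simpa using h1, ?_, ?_⟩
  · simp only; push_cast; linarith
  · simp only; push_cast; linarith

/-- the last triangle -/
theorem Rk_base (n s : ℕ) {α μ ν : ℝ} (hμ : 0 ≤ μ) (hν : 0 ≤ ν) (hn : μ + ν = n) :
    Rk (fun _ : Fin n => s) (Reg α (α + n * s) μ ν) (n * (s + 1).choose 2) := by
  classical
  let row : ℕ → Finset (ℤ × ℤ) := fun k =>
    (Finset.Ico (⌈α + μ * k⌉) (⌈α + μ * k⌉ + ((n * (s - k) : ℕ) : ℤ))).image fun a => (a, (k : ℤ))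
  let T : Finset (ℤ × ℤ) := (range s).biUnion row
  have hmem : ∀ m, m ∈ T ↔ ∃ k : ℕ, k < s ∧ m.2 = k ∧ ⌈α + μ * k⌉ ≤ m.1 ∧
      m.1 < ⌈α + μ * k⌉ + ((n * (s - k) : ℕ) : ℤ) := by
    intro m
    simp only [T, row, mem_biUnion, mem_image, mem_Ico, mem_range]
    constructor
    · rintro ⟨k, hk, a, ⟨h1, h2⟩, rfl⟩
      exact ⟨k, hk, rfl, h1, h2⟩
    · rintro ⟨k, hk, h1, h2, h3⟩
      refine ⟨k, hk, m.1, ⟨h2, h3⟩, ?_⟩
      rw [← h1]
  have hlt : ∀ m ∈ T, 0 ≤ m.2 ∧ α + μ * (m.2 : ℝ) ≤ m.1 ∧ (m.1 : ℝ) < α + n * s - ν * m.2 := by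
    intro m hm
    obtain ⟨k, hk, h1, h2, h3⟩ := (hmem m).1 hm
    rw [h1]
    refine ⟨by omega, ?_, ?_⟩
    · push_cast
      exact (Int.le_ceil _).trans (by exact_mod_cast h2)
    · push_cast
      have h4 : (m.1 : ℝ) ≤ ⌈α + μ * k⌉ + ((n * (s - k) : ℕ) : ℝ) - 1 := by
        have : m.1 ≤ ⌈α + μ * k⌉ + ((n * (s - k) : ℕ) : ℤ) - 1 := by omega
        exact_mod_cast this
      have h5 : (⌈α + μ * k⌉ : ℝ) < α + μ * k + 1 := Int.ceil_lt_add_one _
      have h6 : ((n * (s - k) : ℕ) : ℝ) = n * s - n * k := by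
        rw [Nat.cast_mul, Nat.cast_sub hk.le]; ring
      rw [h6] at h4
      have h7 : (n : ℝ) * k = μ * k + ν * k := by rw [← hn]; ring
      linarith
  refine ⟨T, ?_, ?_, ?_⟩
  · intro m hm
    obtain ⟨h1, h2, h3⟩ := hlt m hm
    exact ⟨h1, h2, h3.le⟩
  · rw [card_biUnion]
    · have h1 : ∀ k ∈ range s, (row k).card = n * (s - k) := by
        intro k _
        rw [card_image_of_injective _ (fun a b h => (Prod.mk.injEq _ _ _ _ ▸ h).1), Int.card_Ico]
        omega
      rw [sum_congr rfl h1, ← mul_sum]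
      congr 1
      have h2 : ∑ k ∈ range s, (s - k) = ∑ k ∈ range (s + 1), k := by
        rw [Finset.sum_range_succ', add_zero, ← Finset.sum_range_reflect]
        apply sum_congr rfl
        intro k hk
        have := mem_range.1 hk
        omega
      rw [h2, Finset.sum_range_id, Nat.choose_two_right]
    · intro k _ k' _ hne
      show Disjoint (row k) (row k')
      rw [Finset.disjoint_left]
      intro m hm hm'
      simp only [row, mem_image] at hm hm'
      obtain ⟨a, -, rfl⟩ := hm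
      obtain ⟨a', -, h⟩ := hm'
      apply hne
      have := congrArg Prod.snd h
      simp only [Nat.cast_inj] at this
      exact this.symm
  · -- choose a slightly smaller triangle
    rcases T.eq_empty_or_nonempty with hT | hT
    · rw [hT]
      refine ⟨ℚ, inferInstance, inferInstance, fun _ => 1, fun _ => 1, fun _ => one_ne_zero,
        fun _ => one_ne_zero, fun f hf _ => ?_⟩
      rw [← Finsupp.support_eq_empty]
      ext m
      constructor
      · intro hm
        have := hf hm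
        simp at this
      · intro hm; simp at hm
    · obtain ⟨m0, hm0, hmax⟩ := Finset.exists_max_image T (fun m => (m.1 : ℝ) + ν * m.2) hT
      have hβ : (m0.1 : ℝ) + ν * m0.2 < α + n * s := by
        have := (hlt m0 hm0).2.2
        linarith
      refine (Pool.Agent.TH819.NagA.Emp_final (fun _ : Fin n => s) α ((m0.1 : ℝ) + ν * m0.2) μ ν hμ hν
        (by rw [hn, Fintype.card_fin]) ?_).mono ?_
      · rw [sum_const, card_univ, Fintype.card_fin, nsmul_eq_mul]
        linarith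
      · intro m hm
        obtain ⟨h1, h2, h3⟩ := hlt m hm
        have h4 := hmax m hm
        refine ⟨h1, h2, ?_⟩
        linarith

/-- asymptotic independence of the conditions imposed by `n` points on the multiples of the
triangle with base `B` and slopes `μ, ν` -/
def AS (n : ℕ) (B μ ν : ℝ) : Prop :=
  ∀ η : ℝ, 0 < η → ∃ s0 : ℕ, ∀ s : ℕ, s0 ≤ s → ∀ α : ℝ,
    Rk (fun _ : Fin n => s) (Reg α (α + (B + η) * s) μ ν) (n * (s + 1).choose 2)

theorem Reg_mono {α β α' β' μ ν : ℝ} (hα : α' ≤ α) (hβ : β ≤ β') : Reg α β μ ν ⊆ Reg α' β' μ ν := by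
  rintro m ⟨h1, h2, h3⟩
  exact ⟨h1, by linarith, by linarith⟩

theorem exists_large {η c : ℝ} (hη : 0 < η) : ∃ s0 : ℕ, ∀ s : ℕ, s0 ≤ s → c ≤ η * s := by
  obtain ⟨s0, hs0⟩ := exists_nat_ge (c / η)
  refine ⟨s0, fun s hs => ?_⟩
  have h1 : (s0 : ℝ) ≤ s := by exact_mod_cast hs
  have h2 : c / η ≤ s := hs0.trans h1
  rw [div_le_iff₀ hη] at h2
  linarith

theorem AS.regA {n : ℕ} {B μ ν B' μ' ν' : ℝ} (x y u v : ℤ) (hdet : x * u + y * v = 1) (hx : 0 ≤ x)
    (h1 : 0 ≤ x * μ + y) (h2 : x * ν ≤ y) (hn : 0 < μ + ν)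
    (hB : B' * (μ + ν) = (y + x * μ) * B)
    (hμ : μ' = x * (x * μ + y)) (hν : ν' * (μ + ν) = (y - x * ν) * (y + x * μ))
    (h : AS n B' μ' ν') : AS n B μ ν := by
  intro η hη
  have hX : 0 < (y : ℝ) + x * μ := by
    rcases lt_or_eq_of_le h1 with h3 | h3
    · linarith
    · exfalso
      have hx' : (0 : ℝ) ≤ x := by exact_mod_cast hx
      have h4 : (x : ℝ) * (μ + ν) = 0 := by
        have : 0 ≤ (x : ℝ) * (μ + ν) := mul_nonneg hx' hn.le
        linarith
      have h5 : (x : ℝ) = 0 := (mul_eq_zero.1 h4).resolve_right hn.ne'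
      have h6 : (y : ℝ) = 0 := by rw [h5] at h3; linarith
      have hdet' : (x : ℝ) * u + y * v = 1 := by exact_mod_cast hdet
      rw [h5, h6] at hdet'
      simp at hdet'
  set c : ℝ := (y + x * μ) / (μ + ν) with hc
  have hc0 : 0 < c := div_pos hX hn
  have hcn : c * (μ + ν) = y + x * μ := by rw [hc]; field_simp
  obtain ⟨s1, hs1⟩ := h (η * c / 2) (by positivity)
  obtain ⟨s2, hs2⟩ := exists_large (η := η * c / 2) (c := μ' + ν') (by positivity)
  refine ⟨max s1 s2, fun s hs α => ?_⟩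
  have hs1' := hs1 s ((le_max_left _ _).trans hs)
  have hs2' := hs2 s ((le_max_right _ _).trans hs)
  refine Rk_regA x y u v hdet hx h1 h2 hn (α' := x * α) (β' := x * α + (B' + η * c) * s)
    (μ' := μ') (ν' := ν') rfl ?_ hμ hν ?_
  · linear_combination (s : ℝ) * hB + η * s * hcn
  · refine (hs1' (x * α + μ')).mono (Reg_mono le_rfl ?_)
    have e : x * α + μ' + (B' + η * c / 2) * s = x * α + (B' + η * c) * s + μ' - η * c / 2 * s := by ring
    rw [e]
    linarith

theorem AS.regC {n : ℕ} {B μ ν B' μ' ν' : ℝ} (x y u v : ℤ) (hdet : x * u + y * v = 1) (hx : 0 ≤ x)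
    (h1 : 0 ≤ x * μ + y) (h2 : (y : ℝ) ≤ x * ν)
    (hB : B' = x * B) (hμ : μ' = x * (x * μ + y)) (hν : ν' = x * (x * ν - y))
    (h : AS n B' μ' ν') : AS n B μ ν := by
  intro η hη
  have hx0 : (0 : ℝ) < x := by
    have hx' : (0 : ℝ) ≤ x := by exact_mod_cast hx
    have hdet' : (x : ℝ) * u + y * v = 1 := by exact_mod_cast hdet
    rcases lt_or_eq_of_le hx' with h3 | h3
    · exact h3
    · exfalso
      rw [← h3] at h1 h2 hdet'
      have h4 : (y : ℝ) = 0 := by linarith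
      rw [h4] at hdet'
      simp at hdet'
  obtain ⟨s1, hs1⟩ := h (η * x / 2) (by positivity)
  obtain ⟨s2, hs2⟩ := exists_large (η := η * x / 2) (c := μ' + ν') (by positivity)
  refine ⟨max s1 s2, fun s hs α => ?_⟩
  have hs1' := hs1 s ((le_max_left _ _).trans hs)
  have hs2' := hs2 s ((le_max_right _ _).trans hs)
  refine Rk_regC x y u v hdet hx h1 h2 (α' := x * α) (β' := x * (α + (B + η) * s))
    (μ' := μ') (ν' := ν') rfl rfl hμ hν ?_
  refine (hs1' (x * α + μ')).mono (Reg_mono le_rfl ?_)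
  rw [hB]
  have e : x * α + μ' + (x * B + η * x / 2) * s = x * (α + (B + η) * s) + μ' - η * x / 2 * s := by ring
  rw [e]
  linarith

theorem AS.mirror {n : ℕ} {B μ ν : ℝ} (h : AS n B ν μ) : AS n B μ ν := by
  intro η hη
  obtain ⟨s0, hs0⟩ := h η hη
  refine ⟨s0, fun s hs α => Rk_mirror ?_⟩
  have := hs0 s hs (-(α + (B + η) * s))
  have e : -(α + (B + η) * s) + (B + η) * s = -α := by ring
  rwa [e] at this

theorem AS.base (n : ℕ) {μ ν : ℝ} (hμ : 0 ≤ μ) (hν : 0 ≤ ν) (hn : μ + ν = n) : AS n n μ ν := by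
  intro η hη
  refine ⟨0, fun s _ α => (Rk_base n s hμ hν hn (α := α)).mono (Reg_mono le_rfl ?_)⟩
  have : 0 ≤ η * s := by positivity
  linarith

end Pool.Agent.TH880.NB
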