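import Pool.Agent.W489.Transfer

/-!
Transfer of jet separation from a hypersurface model to a projective surface, with a given linear
form (after `Pool.Agent.W489.Transfer`).
-/

set_option autoImplicit false

namespace Pool.Agent.TH880.NB

open MvPolynomial Pool.Agent.W607 Pool.Agent.W489.Transfer

theorem transferL {N n r E s d : ℕ} {L : Type*} [Field L] [Algebra ℂ L]
    (I : Ideal (MvPolynomial (Fin (N + 1)) ℂ)) (hIh : Hmg I)
    (π : MvPolynomial (Fin (N + 1)) ℂ →ₐ[ℂ] L) (hπ : ∀ f, π f = 0 ↔ f ∈ I)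
    (v0 v1 v2 θ : L) (Φ : BB ℂ) (g : AA ℂ)
    (ℓ0 : MvPolynomial (Fin (N + 1)) ℂ) (hℓ0 : ℓ0.IsHomogeneous 1) (hπ0 : π ℓ0 = v0)
    (h1 : v1 ∈ Submodule.span ℂ (Set.range fun i => π (X i)))
    (h2 : v2 ∈ Submodule.span ℂ (Set.range fun i => π (X i))) (hv0 : v0 ≠ 0)
    (hθ : θ * v0 ^ d ∈ (Submodule.span ℂ (Set.range fun i => π (X i))) ^ d)
    (hker : ∀ G : BB ℂ, ev (K := ℂ) (v1 / v0) (v2 / v0) θ G = 0 ↔ Φ ∣ G)
    (hQ : ∀ i, ∃ Q : BB ℂ, aeval ![v1 / v0, v2 / v0] g * (π (X i) / v0) =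
      ev (K := ℂ) (v1 / v0) (v2 / v0) θ Q)
    (p : Fin n → Fin 3 → ℂ) (hp : ∀ q, ev (K := ℂ) (p q 0) (p q 1) (p q 2) Φ = 0)
    (hpg : ∀ q, aeval ![p q 0, p q 1] g ≠ 0)
    (hsep : ∀ q (f : BB ℂ), ∃ G : BB ℂ, InV r E G ∧
      G - f ∈ Ideal.span {Φ} ⊔ (mp (p q)) ^ s ∧
      ∀ q', q' ≠ q → G ∈ Ideal.span {Φ} ⊔ (mp (p q')) ^ s) :
    ∃ w : Fin n → Fin (N + 1) → ℂ,
      (∀ q, eval (w q) ℓ0 = 1) ∧ (∀ q, ∀ f ∈ I, eval (w q) f = 0) ∧
      ∀ q (f : MvPolynomial (Fin (N + 1)) ℂ), ∃ F : MvPolynomial (Fin (N + 1)) ℂ,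
        F.IsHomogeneous (E + r * d) ∧ F - f ∈ I ⊔ Ideal.span {ℓ0 - 1} ⊔ (mw (w q)) ^ s ∧
        ∀ q', q' ≠ q → F ∈ I ⊔ Ideal.span {ℓ0 - 1} ⊔ (mw (w q')) ^ s := by
  obtain ⟨ℓ1, hℓ1, hπ1⟩ := exists_form π 1 (u := v1) (by rwa [pow_one])
  obtain ⟨ℓ2, hℓ2, hπ2⟩ := exists_form π 1 (u := v2) (by rwa [pow_one])
  obtain ⟨t, ht, hπt⟩ := exists_form π d hθ
  choose Q hQ using hQ
  let w : Fin n → Fin (N + 1) → ℂ := fun q j =>
    ev (K := ℂ) (p q 0) (p q 1) (p q 2) (Q j) / aeval ![p q 0, p q 1] g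
  have hw : ∀ q i, aeval ![p q 0, p q 1] g * w q i =
      ev (K := ℂ) (p q 0) (p q 1) (p q 2) (Q i) := fun q i => mul_div_cancel₀ _ (hpg q)
  let ρ : MvPolynomial (Fin (N + 1)) ℂ →ₐ[ℂ] L := aeval (fun j => π (X j) / v0)
  have hkey : ∀ q (f : MvPolynomial (Fin (N + 1)) ℂ) (B : BB ℂ),
      ρ f = ev (K := ℂ) (v1 / v0) (v2 / v0) θ B →
        eval (w q) f = ev (K := ℂ) (p q 0) (p q 1) (p q 2) B := by
    intro q f B hfB
    obtain ⟨D, H, hH1, hH2⟩ := exists_H hQ f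
    have h3 : ev (K := ℂ) (v1 / v0) (v2 / v0) θ (H - Polynomial.C g ^ D * B) = 0 := by
      rw [map_sub, map_mul, map_pow, ev_C, hH1, ← hfB]
      exact sub_self _
    obtain ⟨K, hK⟩ := (hker _).1 h3
    have h4 : ev (K := ℂ) (p q 0) (p q 1) (p q 2) (H - Polynomial.C g ^ D * B) = 0 := by
      rw [hK, map_mul, hp, zero_mul]
    rw [map_sub, map_mul, map_pow, ev_C, hH2 (p q) (w q) (hw q), ← mul_sub] at h4
    exact sub_eq_zero.1 ((mul_eq_zero.1 h4).resolve_left (pow_ne_zero _ (hpg q)))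
  -- the homomorphism back
  let υ : BB ℂ →+* MvPolynomial (Fin (N + 1)) ℂ := ev (K := ℂ) ℓ1 ℓ2 t
  have hρυ : ∀ B, ρ (υ B) = ev (K := ℂ) (v1 / v0) (v2 / v0) θ B := by
    have h3 : (ρ : MvPolynomial (Fin (N + 1)) ℂ →+* L).comp υ =
        ev (K := ℂ) (v1 / v0) (v2 / v0) θ := by
      have e1 : ρ ℓ1 = v1 / v0 := by
        simp only [ρ]
        rw [hom_scale π v0 hℓ1, hπ1, pow_one]
      have e2 : ρ ℓ2 = v2 / v0 := by
        simp only [ρ]
        rw [hom_scale π v0 hℓ2, hπ2, pow_one]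
      have e3 : ρ t = θ := by
        simp only [ρ]
        rw [hom_scale π v0 ht, hπt, mul_div_cancel_right₀ _ (pow_ne_zero _ hv0)]
      refine BB_hom_ext (fun k => ?_) ?_ ?_ ?_
      · simp [υ, ev]
      · simpa [υ, ev] using e1
      · simpa [υ, ev] using e2
      · simpa [υ, ev] using e3
    intro B
    rw [← h3]
    rfl
  have hevυ : ∀ q B, eval (w q) (υ B) = ev (K := ℂ) (p q 0) (p q 1) (p q 2) B := fun q B =>
    hkey q _ B (hρυ B)
  have hkerJ : ∀ f, ρ f = 0 → f ∈ I ⊔ Ideal.span {ℓ0 - 1} := fun f hf => ker_le hπ hv0 hπ0 hf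
  have hmpυ : ∀ q, (mp (p q)).map υ ≤ mw (w q) := by
    intro q
    rw [Ideal.map_le_iff_le_comap, mp, Ideal.span_le]
    intro B hB
    rw [SetLike.mem_coe, Ideal.mem_comap, mem_mw, hevυ]
    simp only [Set.mem_insert_iff, Set.mem_singleton_iff] at hB
    rcases hB with rfl | rfl | rfl <;> simp [ev]
  have hΦυ : ∀ q, ((Ideal.span {Φ} ⊔ (mp (p q)) ^ s).map υ) ≤
      I ⊔ Ideal.span {ℓ0 - 1} ⊔ (mw (w q)) ^ s := by
    intro q
    rw [Ideal.map_sup, Ideal.map_pow, Ideal.map_span, Set.image_singleton]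
    refine sup_le_sup ?_ (Ideal.pow_right_mono (hmpυ q) s)
    rw [Ideal.span_le, Set.singleton_subset_iff]
    apply hkerJ
    rw [hρυ, hker]
  have hback : ∀ q (f : MvPolynomial (Fin (N + 1)) ℂ), ∃ f' : BB ℂ,
      f - υ f' ∈ I ⊔ Ideal.span {ℓ0 - 1} ⊔ (mw (w q)) ^ s := by
    intro q
    obtain ⟨g', y, hg', hy⟩ := exists_inv s (hpg q)
    let J := I ⊔ Ideal.span {ℓ0 - 1} ⊔ (mw (w q)) ^ s
    let ψ : MvPolynomial (Fin (N + 1)) ℂ →+* BB ℂ :=
      eval₂Hom (Polynomial.C.comp C) (fun j => g' * Q j)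
    have h3 : Ideal.Quotient.mk J = ((Ideal.Quotient.mk J).comp υ).comp ψ := by
      refine MvPolynomial.ringHom_ext (fun c => ?_) (fun j => ?_)
      · simp [ψ, υ, ev]
      · simp only [RingHom.comp_apply, ψ, coe_eval₂Hom, eval₂_X]
        rw [Ideal.Quotient.mk_eq_mk_iff_sub_mem]
        have h4 : X j - υ (g' * Q j) = X j * υ (1 - Polynomial.C g * g') +
            υ g' * (υ (Polynomial.C g) * X j - υ (Q j)) := by
          simp only [map_mul, map_sub, map_one]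
          ring
        rw [h4]
        refine Ideal.add_mem _ (Ideal.mem_sup_right ?_) (Ideal.mem_sup_left ?_)
        · rw [hg', map_pow]
          refine Ideal.mul_mem_left _ _ (Ideal.pow_mem_pow ?_ s)
          rw [mem_mw, hevυ, hy]
        · refine Ideal.mul_mem_left _ _ (hkerJ _ ?_)
          rw [map_sub, map_mul, hρυ, hρυ, ← hQ, ev_C]
          simp [ρ]
    intro f
    refine ⟨ψ f, ?_⟩
    rw [← Ideal.Quotient.mk_eq_mk_iff_sub_mem]
    exact congrArg (fun φ : MvPolynomial (Fin (N + 1)) ℂ →+* _ => φ f) h3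
  refine ⟨w, fun q => ?_, fun q f hf => ?_, fun q f => ?_⟩
  · have h3 := hkey q ℓ0 1 (by
      simp only [ρ]
      rw [hom_scale π v0 hℓ0, hπ0, pow_one, div_self hv0, map_one])
    rw [h3, map_one]
  · have h3 := hkey q f 0 (by rw [map_zero]; exact le_ker hIh hπ v0 hf)
    rw [h3, map_zero]
  · obtain ⟨f', hf'⟩ := hback q f
    obtain ⟨G, ⟨hG1, hG2⟩, hG3, hG4⟩ := hsep q f'
    choose Fk hFk1 hFk2 using fun k => exists_hom hℓ0 hℓ1 hℓ2 (G.coeff k) (hG2 k)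
    have hF : ∑ k ∈ Finset.range r, Fk k * t ^ k * ℓ0 ^ ((r - k) * d) - υ G ∈
        Ideal.span {ℓ0 - 1} := by
      have h3 : υ G = ∑ k ∈ Finset.range r, aeval ![ℓ1, ℓ2] (G.coeff k) * t ^ k := by
        have h5 : G = ∑ k ∈ Finset.range r, Polynomial.C (G.coeff k) * Polynomial.X ^ k := by
          ext1 i
          simp only [Polynomial.finsetSum_coeff, Polynomial.coeff_C_mul_X_pow]
          rw [Finset.sum_ite_eq]
          split_ifs with hi
          · rfl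
          · exact hG1 i (by simpa using hi)
        conv_lhs => rw [h5]
        rw [map_sum]
        refine Finset.sum_congr rfl fun k _ => ?_
        simp [υ, ev]
      rw [h3, ← Finset.sum_sub_distrib]
      refine Ideal.sum_mem _ fun k _ => ?_
      have h4 : Fk k * t ^ k * ℓ0 ^ ((r - k) * d) - aeval ![ℓ1, ℓ2] (G.coeff k) * t ^ k =
          Fk k * t ^ k * (ℓ0 ^ ((r - k) * d) - 1) +
          t ^ k * (Fk k - aeval ![ℓ1, ℓ2] (G.coeff k)) := by ring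
      rw [h4]
      exact Ideal.add_mem _ (Ideal.mul_mem_left _ _ (pow_sub_one_mem _ _))
        (Ideal.mul_mem_left _ _ (hFk2 k))
    refine ⟨∑ k ∈ Finset.range r, Fk k * t ^ k * ℓ0 ^ ((r - k) * d), ?_, ?_, fun q' hq' => ?_⟩
    · refine IsHomogeneous.sum _ _ _ fun k hk => ?_
      have h3 := ((hFk1 k).mul (ht.pow k)).mul (hℓ0.pow ((r - k) * d))
      have hk' : k ≤ r := by
        have := Finset.mem_range.1 hk
        omega
      have h4 : E + d * k + 1 * ((r - k) * d) = E + r * d := by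
        obtain ⟨c, rfl⟩ := Nat.exists_eq_add_of_le hk'
        rw [Nat.add_sub_cancel_left]
        ring
      rwa [h4] at h3
    · have h3 : ∑ k ∈ Finset.range r, Fk k * t ^ k * ℓ0 ^ ((r - k) * d) - f =
          (∑ k ∈ Finset.range r, Fk k * t ^ k * ℓ0 ^ ((r - k) * d) - υ G) +
          υ (G - f') - (f - υ f') := by
        rw [map_sub]; ring
      rw [h3]
      refine Ideal.sub_mem _ (Ideal.add_mem _ ?_ (hΦυ q (Ideal.mem_map_of_mem υ hG3))) hf'
      exact Ideal.mem_sup_left (Ideal.mem_sup_right hF)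
    · have h3 : ∑ k ∈ Finset.range r, Fk k * t ^ k * ℓ0 ^ ((r - k) * d) =
          (∑ k ∈ Finset.range r, Fk k * t ^ k * ℓ0 ^ ((r - k) * d) - υ G) + υ G := by
        ring
      rw [h3]
      refine Ideal.add_mem _ (Ideal.mem_sup_left (Ideal.mem_sup_right hF))
        (hΦυ q' (Ideal.mem_map_of_mem υ (hG4 q' hq')))

end Pool.Agent.TH880.NB
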