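import Pool.Agent.TH880.NB.CoreT
import Pool.Agent.TH880.NB.TransL
import Pool.Agent.W607.General

/-!
Exact multi-point Seshadri constants on every projective surface, from the toric input (after
`Pool.Agent.W607.Assemble` and `Pool.Agent.W607.General`).
-/

namespace Pool.Agent.TH880.NB

open MvPolynomial Filter Topology Pool.Agent.W607

/-- separation of jets on a hypersurface model -/
theorem coreCT (Φ : BB ℂ) (hm : Φ.Monic) (hirr : Irreducible Φ) (g : AA ℂ) (hg : g ≠ 0)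
    (n : ℕ) (ε : ℝ) (hcl : Tor Φ.natDegree n ε) (c : ℕ) :
    ∃ E s : ℕ, 2 ≤ s ∧
      ((E : ℝ) + c) * √Φ.natDegree ≤ (1 + ε) * (√n * ((s : ℝ) - 1)) ∧
      ∃ p : Fin n → Fin 3 → ℂ, (∀ q, ev (K := ℂ) (p q 0) (p q 1) (p q 2) Φ = 0) ∧
        (∀ q, aeval ![p q 0, p q 1] g ≠ 0) ∧
        ∀ q (f : BB ℂ), ∃ G : BB ℂ, InV Φ.natDegree E G ∧
          G - f ∈ Ideal.span {Φ} ⊔ (mp (p q)) ^ s ∧
          ∀ q', q' ≠ q → G ∈ Ideal.span {Φ} ⊔ (mp (p q')) ^ s := by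
  obtain ⟨a0, b0, θ0, h0, h1, hg0⟩ := Pool.Agent.W31.T8.base_point Φ hm hirr g hg
  obtain ⟨E, s, hs, hnum, F, _, _, p, Θ, H1, H2, H3, H4⟩ :=
    coreFT Φ hm hirr g n ε hcl c a0 b0 θ0 h0 h1 hg0
  obtain ⟨p', Θ', H1', H2', H3', H4'⟩ := Pool.Agent.W397.descent Φ g n Φ.natDegree E s p Θ
    H1 H2 H3 H4
  refine ⟨E, s, hs, hnum, fun q => ![p' q 0, p' q 1, constantCoeff (Θ' q)], fun q => ?_,
    fun q => ?_, fun q f => ?_⟩
  · have h2 := H1' q
    have h3 : constantCoeff (ev (K := ℂ) (X 0 + C (p' q 0)) (X 1 + C (p' q 1)) (Θ' q) Φ) =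
        0 := by
      rw [mem_pow_idealOfVars_iff'] at h2
      rw [constantCoeff_eq]
      exact h2 0 (by rw [map_zero]; omega)
    rw [ev_eq_evh, evh_comp_apply] at h3
    rw [ev_eq_evh, ← h3]
    simp only [map_add, constantCoeff_X, constantCoeff_C, zero_add]
    congr 2
    ext a
    simp
  · have h2 := H2' q
    convert h2 using 3
    ext i
    fin_cases i <;> rfl
  · obtain ⟨G, hG, hG1, hG2⟩ := H4' q
      (ev (K := ℂ) (X 0 + C (p' q 0)) (X 1 + C (p' q 1)) (Θ' q) f)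
    refine ⟨G, hG, ?_, fun q' hq' => ?_⟩
    · refine Pool.Agent.W522.Jets.jets Φ s (p' q) (Θ' q) (H1' q) (H3' q) (G - f) ?_
      rw [map_sub]
      exact hG1
    · exact Pool.Agent.W522.Jets.jets Φ s (p' q') (Θ' q') (H1' q') (H3' q') G (hG2 q' hq')

/-- separation of jets on a projective surface, with a linear form which does not depend on the
points -/
theorem sepXT {N : ℕ} (I : Ideal (MvPolynomial (Fin (N + 1)) ℂ)) (hI : I.IsPrime) (hIh : Hmg I)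
    (δ : ℝ) (hδ : 0 < δ)
    (hgr : Tendsto (fun t : ℕ => 2 * (hilb I t : ℝ) / (t : ℝ) ^ 2) atTop (𝓝 δ)) :
    ∃ (r : ℕ) (ℓ : MvPolynomial (Fin (N + 1)) ℂ), 1 ≤ r ∧ (r : ℝ) = δ ∧ ℓ.IsHomogeneous 1 ∧
      ∀ (n : ℕ) (ε : ℝ), Tor r n ε → ∃ E s : ℕ, 2 ≤ s ∧
      (E : ℝ) * √δ ≤ (1 + ε) * (√n * ((s : ℝ) - 1)) ∧
      ∃ w : Fin n → Fin (N + 1) → ℂ,
      (∀ q, eval (w q) ℓ = 1) ∧ (∀ q, ∀ f ∈ I, eval (w q) f = 0) ∧ Sep I ℓ E s w := by
  let S := MvPolynomial (Fin (N + 1)) ℂ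
  let L := FractionRing (S ⧸ I)
  let π : S →ₐ[ℂ] L := (IsScalarTower.toAlgHom ℂ (S ⧸ I) L).comp (Ideal.Quotient.mkₐ ℂ I)
  have hπ : ∀ f, π f = 0 ↔ f ∈ I := by
    intro f
    show algebraMap (S ⧸ I) L (Ideal.Quotient.mk I f) = 0 ↔ f ∈ I
    rw [map_eq_zero_iff _ (IsFractionRing.injective (S ⧸ I) L), Ideal.Quotient.eq_zero_iff_mem]
  let U : Submodule ℂ L := Submodule.span ℂ (Set.range fun i => π (X i))
  have hU : U.FG := Submodule.fg_span (Set.finite_range _)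
  have hU1 : U = (homogeneousSubmodule (Fin (N + 1)) ℂ 1).map π.toLinearMap := by
    rw [homogeneousSubmodule_one_eq_span_X, Submodule.map_span, ← Set.range_comp]
    rfl
  have hUt : ∀ t, Module.finrank ℂ (U ^ t : Submodule ℂ L) = hilb I t := by
    intro t
    rw [hU1, ← Submodule.map_pow, homogeneousSubmodule_one_pow]
    have h1 : (homogeneousSubmodule (Fin (N + 1)) ℂ t).map π.toLinearMap =
        ((homogeneousSubmodule (Fin (N + 1)) ℂ t).map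
          (Ideal.Quotient.mkₐ ℂ I).toLinearMap).map
            (IsScalarTower.toAlgHom ℂ (S ⧸ I) L).toLinearMap := by
      rw [← Submodule.map_comp]
      rfl
    rw [h1, hilb]
    have hinj : Function.Injective (IsScalarTower.toAlgHom ℂ (S ⧸ I) L).toLinearMap :=
      IsFractionRing.injective (S ⧸ I) L
    exact (LinearEquiv.finrank_eq (Submodule.equivMapOfInjective _ hinj _)).symm
  have hgr' : Tendsto (fun t : ℕ => 2 * (Module.finrank ℂ (U ^ t : Submodule ℂ L) : ℝ) /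
      (t : ℝ) ^ 2) atTop (𝓝 δ) := by
    simp only [hUt]
    exact hgr
  obtain ⟨v0, hv0U, v1, hv1U, v2, hv2U, hv0, hred, hind⟩ :=
    Pool.Agent.W63.T3S7.reduction_three U hU δ hδ hgr'
  obtain ⟨θ, Φ, g, d, hm, hirr, hdeg, hg, hθ, hker, hQ⟩ :=
    Pool.Agent.W31.T8.field_setup U hU δ hgr' v0 v1 v2 hv0U hv1U hv2U hv0 hred hind
  have hr : 1 ≤ Φ.natDegree := by
    rcases Nat.eq_zero_or_pos Φ.natDegree with h | h
    · exfalso
      rw [hm.natDegree_eq_zero] at h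
      rw [h] at hirr
      exact hirr.not_isUnit isUnit_one
    · exact h
  obtain ⟨ℓ0, hℓ0, hπ0⟩ := Pool.Agent.W489.Transfer.exists_form π 1 (u := v0) (by rwa [pow_one])
  refine ⟨Φ.natDegree, ℓ0, hr, hdeg, hℓ0, fun n ε hTor => ?_⟩
  obtain ⟨E, s, hs, hnum, p, hp, hpg, hsep⟩ := coreCT Φ hm hirr g hg n ε hTor (Φ.natDegree * d)
  obtain ⟨w, hw1, hwI, hF⟩ := transferL I hIh π hπ v0 v1 v2 θ Φ g ℓ0 hℓ0 hπ0
    hv1U hv2U hv0 hθ hker (fun i => hQ _ (Submodule.subset_span ⟨i, rfl⟩)) p hp hpg hsep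
  refine ⟨E + Φ.natDegree * d, s, hs, ?_, w, hw1, hwI, hF⟩
  rw [hdeg] at hnum
  exact_mod_cast hnum

/-- **Exact multi-point Seshadri constants at very general points of every projective surface**,
for all numbers of points with the toric input. -/
theorem exact_general {N : ℕ} (I : Ideal (MvPolynomial (Fin (N + 1)) ℂ))
    (hI : I.IsPrime) (hIh : Hmg I) (δ : ℝ) (hδ : 0 < δ)
    (hgr : Tendsto (fun t : ℕ => 2 * (hilb I t : ℝ) / (t : ℝ) ^ 2) atTop (𝓝 δ)) :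
    ∃ (r : ℕ) (ℓ : MvPolynomial (Fin (N + 1)) ℂ), 1 ≤ r ∧ (r : ℝ) = δ ∧ ℓ.IsHomogeneous 1 ∧
      ∀ n : ℕ, 1 ≤ n → (∀ ε : ℝ, 0 < ε → Tor r n ε) →
      ∃ H : ℕ → MvPolynomial (Fin n × Fin (N + 1)) ℂ,
      (∀ k, ∃ w : Fin n → Fin (N + 1) → ℂ, (∀ q, ∀ f ∈ I, eval (w q) f = 0) ∧
        (∀ q, eval (w q) ℓ = 1) ∧ eval (fun p => w p.1 p.2) (H k) ≠ 0) ∧
      ∀ w : Fin n → Fin (N + 1) → ℂ, (∀ q, ∀ f ∈ I, eval (w q) f = 0) →
        (∀ q, eval (w q) ℓ = 1) →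
        ((∃ k, eval (fun p => w p.1 p.2) (H k) ≠ 0) → Function.Injective w) ∧
        ∀ P : Ideal (MvPolynomial (Fin (N + 1)) ℂ), P.IsPrime → Hmg P → I ≤ P → ∀ e : ℝ,
        Tendsto (fun t : ℕ => (hilb P t : ℝ) / t) atTop (𝓝 e) → ∀ m : Fin n → ℝ,
        (∀ q, Tendsto (fun M : ℕ => 2 * (len P (w q) M : ℝ) / (M : ℝ) ^ 2) atTop (𝓝 (m q))) →
        ∀ k, eval (fun p => w p.1 p.2) (H k) ≠ 0 →
        ∑ q, m q ≤ (1 + 1 / ((k : ℝ) + 1)) * √(n / δ) * e := by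
  obtain ⟨r, ℓ, hr, hrδ, hℓ, hsepX⟩ := sepXT I hI hIh δ hδ hgr
  refine ⟨r, ℓ, hr, hrδ, hℓ, fun n hn hTor => ?_⟩
  have hn0 : 0 < (n : ℝ) := by exact_mod_cast hn
  choose E s hs hnum w0 hw01 hw0I hsep0 using fun k : ℕ =>
    hsepX n (1 / ((k : ℝ) + 1)) (hTor _ (by positivity))
  choose H hH0 hH using fun k => Sep.exists_open (I := I) (ℓ := ℓ) (E := E k) (s := s k)
    (w0 := w0 k) (hsep0 k)
  refine ⟨H, fun k => ⟨w0 k, hw0I k, hw01 k, hH0 k⟩, fun w hwI hw1 => ⟨?_, ?_⟩⟩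
  · rintro ⟨k, hk⟩
    have := hs k
    exact (hH k w hk).injective (by omega) hw1 hwI
  · intro P hP hPh hIP e he m hm k hk
    have hsep := hH k w hk
    have hsk := hs k
    have hinj := hsep.injective (by omega) hw1 hwI
    have h1 := Pool.Agent.W601.Curve.curve_ineq I ℓ hℓ (E k) (s k) (by omega) w hinj hw1 hsep P hP
      hPh hIP e he m hm
    have he0 : 0 ≤ e := ge_of_tendsto' he fun t => by positivity
    have hqδ : 0 < √δ := Real.sqrt_pos.2 hδ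
    rw [Real.sqrt_div hn0.le]
    have hs1 : (1 : ℝ) < s k := by
      exact_mod_cast hs k
    have h2 : ((s k : ℝ) - 1) * √δ * ∑ q, m q ≤
        ((s k : ℝ) - 1) * √δ * ((1 + 1 / ((k : ℝ) + 1)) * (√n / √δ) * e) := by
      calc ((s k : ℝ) - 1) * √δ * ∑ q, m q = (((s k : ℝ) - 1) * ∑ q, m q) * √δ := by ring
        _ ≤ (e * E k) * √δ := mul_le_mul_of_nonneg_right h1 hqδ.le
        _ = e * (E k * √δ) := by ring
        _ ≤ e * ((1 + 1 / ((k : ℝ) + 1)) * (√n * ((s k : ℝ) - 1))) :=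
          mul_le_mul_of_nonneg_left (hnum k) he0
        _ = ((s k : ℝ) - 1) * √δ * ((1 + 1 / ((k : ℝ) + 1)) * (√n / √δ) * e) := by
          field_simp
    exact le_of_mul_le_mul_left h2 (mul_pos (by linarith) hqδ)

end Pool.Agent.TH880.NB
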