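import Pool.Agent.TH880.NB.Rk

/-! Reduction of subspaces over Laurent series. -/

namespace Pool.Agent.TH880.NB

open Finset Pool.Agent.TH176.Nag

variable {K : Type} [Field K]

theorem coeff_mul_neg {a b : LaurentSeries K} (ha : ∀ k < 0, a.coeff k = 0)
    (hb : ∀ k < 0, b.coeff k = 0) : ∀ k < 0, (a * b).coeff k = 0 := by
  intro k hk
  rw [coeff_mul_low (n := k) (fun j hj => ha j (by omega)) hb, ha k hk, zero_mul]

/-- a basis in reduced form with integral coefficients -/
theorem exists_reduced_gen {F : Type} [Field F] (O : Subring F)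
    (hO : ∀ h : (ℤ × ℤ) →₀ F, h ≠ 0 → ∃ i, h i ≠ 0 ∧ ∀ m, (h i)⁻¹ * h m ∈ O) (d : ℕ) :
    ∀ W : Submodule F ((ℤ × ℤ) →₀ F), Module.Finite F W → Module.finrank F W = d →
    ∃ (J : Finset (ℤ × ℤ)) (g : ℤ × ℤ → ((ℤ × ℤ) →₀ F)), J.card = d ∧
      ∀ j ∈ J, g j ∈ W ∧ (∀ m, g j m ∈ O) ∧ ∀ j' ∈ J, g j j' = if j' = j then 1 else 0 := by
  classical
  induction d with
  | zero =>
    intro W _ _
    exact ⟨∅, fun _ => 0, rfl, by simp⟩
  | succ d ih =>
    intro W hfin hrk
    -- a nonzero element
    have hW : W ≠ ⊥ := by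
      rintro rfl
      rw [finrank_bot] at hrk
      omega
    obtain ⟨h, hhW, hh0⟩ := Submodule.exists_mem_ne_zero_of_ne_bot hW
    obtain ⟨i, hi', hi⟩ := hO h hh0
    set h' : (ℤ × ℤ) →₀ F := (h i)⁻¹ • h with hh'
    have hh'W : h' ∈ W := W.smul_mem _ hhW
    have hh'i : h' i = 1 := by
      rw [hh', Finsupp.smul_apply, smul_eq_mul, inv_mul_cancel₀ hi']
    have hh'int : ∀ m, h' m ∈ O := by
      intro m
      rw [hh', Finsupp.smul_apply, smul_eq_mul]
      exact hi m
    -- the hyperplane
    let φ : W →ₗ[F] F := (Finsupp.lapply i).comp W.subtype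
    have hφ : ∀ u : W, φ u = (u : (ℤ × ℤ) →₀ F) i := fun u => rfl
    have hsurj : LinearMap.range φ = ⊤ := by
      rw [LinearMap.range_eq_top]
      intro c
      refine ⟨c • ⟨h', hh'W⟩, ?_⟩
      rw [map_smul, hφ]
      simp only
      rw [hh'i, smul_eq_mul, mul_one]
    have hker : Module.finrank F (LinearMap.ker φ) = d := by
      have h1 := LinearMap.finrank_range_add_finrank_ker (K := F) (V := W) (V₂ := F) φ
      rw [hsurj, finrank_top, Module.finrank_self, hrk] at h1
      omega
    let W' : Submodule F ((ℤ × ℤ) →₀ F) := (LinearMap.ker φ).map W.subtype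
    have hW'W : ∀ u ∈ W', u ∈ W ∧ u i = 0 := by
      rintro _ ⟨u, hu, rfl⟩
      exact ⟨u.2, hu⟩
    have hW'rk : Module.finrank F W' = d := by
      rw [← hker]
      exact (LinearEquiv.finrank_eq (Submodule.equivMapOfInjective _ W.injective_subtype _)).symm
    have hW'le : W' ≤ W := fun u hu => (hW'W u hu).1
    have hW'fin : Module.Finite F W' := Submodule.finiteDimensional_of_le hW'le
    obtain ⟨J, g, hJ, hg⟩ := ih W' hW'fin hW'rk
    have hiJ : i ∉ J := by
      intro hiJ
      obtain ⟨h1, -, h3⟩ := hg i hiJ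
      have h4 := h3 i hiJ
      rw [if_pos rfl, (hW'W _ h1).2] at h4
      exact one_ne_zero h4.symm
    set gi : (ℤ × ℤ) →₀ F := h' - ∑ j ∈ J, h' j • g j with hgi
    have hgiapp : ∀ m, gi m = h' m - ∑ j ∈ J, h' j * g j m := by
      intro m
      rw [hgi, Finsupp.sub_apply, Finsupp.coe_finsetSum, Finset.sum_apply]
      rfl
    refine ⟨insert i J, fun j => if j = i then gi else g j, ?_, ?_⟩
    · rw [card_insert_of_notMem hiJ, hJ]
    · intro j hj
      by_cases hji : j = i
      · subst hji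
        simp only [if_true]
        refine ⟨?_, ?_, ?_⟩
        · refine W.sub_mem hh'W (W.sum_mem fun j' hj' => W.smul_mem _ (hW'W _ (hg j' hj').1).1)
        · intro m
          rw [hgiapp]
          refine O.sub_mem (hh'int m) (O.sum_mem fun j' hj' => ?_)
          exact O.mul_mem (hh'int j') ((hg j' hj').2.1 m)
        · intro j' hj'
          rw [hgiapp]
          rcases mem_insert.1 hj' with rfl | hj'
          · rw [if_pos rfl, hh'i]
            have : ∑ j'' ∈ J, h' j'' * g j'' j' = 0 :=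
              sum_eq_zero fun j'' hj'' => by rw [(hW'W _ (hg j'' hj'').1).2, mul_zero]
            rw [this, sub_zero]
          · have hne' : j' ≠ j := fun h => hiJ (h ▸ hj')
            rw [if_neg hne', sum_eq_single j']
            · rw [(hg j' hj').2.2 j' hj', if_pos rfl, mul_one, sub_self]
            · intro j'' hj'' hne''
              rw [(hg j'' hj'').2.2 j' hj', if_neg (fun h => hne'' h.symm), mul_zero]
            · intro h; exact absurd hj' h
      · have hjJ : j ∈ J := (mem_insert.1 hj).resolve_left hji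
        simp only [if_neg hji]
        obtain ⟨h1, h2, h3⟩ := hg j hjJ
        refine ⟨(hW'W _ h1).1, h2, fun j' hj' => ?_⟩
        rcases mem_insert.1 hj' with rfl | hj'
        · rw [(hW'W _ h1).2, if_neg (fun h => hji h.symm)]
        · exact h3 j' hj'

/-- the integral Laurent series -/
def intR (K : Type) [Field K] : Subring (LaurentSeries K) where
  carrier := {a | ∀ k < (0 : ℤ), a.coeff k = 0}
  mul_mem' ha hb := coeff_mul_neg ha hb
  one_mem' k hk := by rw [HahnSeries.coeff_one, if_neg (by omega)]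
  add_mem' {a b} ha hb k hk := by rw [HahnSeries.coeff_add, ha k hk, hb k hk, add_zero]
  zero_mem' k _ := HahnSeries.coeff_zero
  neg_mem' {a} ha k hk := by rw [HahnSeries.coeff_neg, ha k hk, neg_zero]

theorem exists_reduced (d : ℕ) (W : Submodule (LaurentSeries K) ((ℤ × ℤ) →₀ LaurentSeries K))
    (hfin : Module.Finite (LaurentSeries K) W) (hrk : Module.finrank (LaurentSeries K) W = d) :
    ∃ (J : Finset (ℤ × ℤ)) (g : ℤ × ℤ → ((ℤ × ℤ) →₀ LaurentSeries K)), J.card = d ∧
      ∀ j ∈ J, g j ∈ W ∧ (∀ m, ∀ k < 0, (g j m).coeff k = 0) ∧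
        ∀ j' ∈ J, g j j' = if j' = j then 1 else 0 := by
  refine exists_reduced_gen (intR K) ?_ d W hfin hrk
  intro h hh0
  have hne : h.support.Nonempty := Finsupp.support_nonempty_iff.2 hh0
  obtain ⟨i, hi, hmin⟩ := Finset.exists_min_image h.support (fun m => (h m).order) hne
  have hi' : h i ≠ 0 := Finsupp.mem_support_iff.1 hi
  refine ⟨i, hi', fun m k hk => ?_⟩
  by_cases hm : h m = 0
  · rw [hm, mul_zero, HahnSeries.coeff_zero]
  · apply HahnSeries.coeff_eq_zero_of_lt_order
    have h1 : ((h i)⁻¹ * h m).order = (h m).order - (h i).order := by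
      have h2 : h i * ((h i)⁻¹ * h m) = h m := mul_inv_cancel_left₀ hi' _
      have h3 : (h i)⁻¹ * h m ≠ 0 := mul_ne_zero (inv_ne_zero hi') hm
      have h4 := congrArg HahnSeries.order h2
      rw [HahnSeries.order_mul hi' h3] at h4
      omega
    rw [h1]
    have := hmin m (Finsupp.mem_support_iff.2 hm)
    omega

/-- if all leading parts of `W` are supported in a set with at most `dim W` elements, then every
element of the set is a leading part -/
theorem exists_lifts {W : Submodule (LaurentSeries K) ((ℤ × ℤ) →₀ LaurentSeries K)}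
    (hfin : Module.Finite (LaurentSeries K) W) (S : Finset (ℤ × ℤ))
    (hcard : S.card ≤ Module.finrank (LaurentSeries K) W)
    (hlead : ∀ g ∈ W, (∀ m, ∀ k < 0, (g m).coeff k = 0) → ∀ m, (g m).coeff 0 ≠ 0 → m ∈ S) :
    ∀ m ∈ S, ∃ g ∈ W, ∀ m', ∀ k ≤ (0 : ℤ), (g m').coeff k = if m' = m ∧ k = 0 then 1 else 0 := by
  classical
  obtain ⟨J, g, hJ, hg⟩ := exists_reduced _ W hfin rfl
  have hJS : J ⊆ S := by
    intro j hj
    obtain ⟨h1, h2, h3⟩ := hg j hj
    apply hlead _ h1 h2
    rw [h3 j hj, if_pos rfl, HahnSeries.coeff_one, if_pos rfl]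
    exact one_ne_zero
  have hJS' : J = S := Finset.eq_of_subset_of_card_le hJS (by rw [hJ]; exact hcard)
  intro m hm
  rw [← hJS'] at hm
  obtain ⟨h1, h2, h3⟩ := hg m hm
  refine ⟨g m, h1, fun m' k hk => ?_⟩
  rcases lt_or_eq_of_le hk with hk | rfl
  · rw [h2 m' k hk, if_neg (by rintro ⟨-, h⟩; omega)]
  · by_cases hm' : m' ∈ J
    · rw [h3 m' hm']
      by_cases h : m' = m
      · rw [if_pos h, if_pos ⟨h, rfl⟩, HahnSeries.coeff_one, if_pos rfl]
      · rw [if_neg h, if_neg (fun h' => h h'.1), HahnSeries.coeff_zero]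
    · rw [if_neg (fun h' => hm' (by rw [h'.1]; exact hm))]
      by_contra hne
      apply hm'
      rw [hJS']
      exact hlead _ h1 h2 m' hne

end Pool.Agent.TH880.NB
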