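import Pool.Agent.TH880.NB.Count
import Pool.Agent.TH880.NB.Lat
import Pool.Agent.TH880.NB.RegR

/-! The degeneration from the weighted plane to the charts, for ranks. -/

namespace Pool.Agent.TH880.NB

open Finset Pool.Agent.TH176.Nag

section psi
variable {K : Type} [Field K]

/-- the pullback to the chart with scaled variables, as a linear map -/
noncomputable def psi (K : Type) [Field K] (N t e : ℕ) :
    ((ℤ × ℤ) →₀ LaurentSeries K) →ₗ[LaurentSeries K] ((ℤ × ℤ) →₀ LaurentSeries K) :=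
  Finsupp.linearCombination (LaurentSeries K) fun m : ℤ × ℤ =>
    scl (s0 N t (zL (LaurentSeries K) N) ^ ((N - 2) * e - m.1.toNat - (N - 2) * m.2.toNat) *
      s1 N t (zL (LaurentSeries K) N) ^ m.1.toNat * s2 N t (zL (LaurentSeries K) N) ^ m.2.toNat).coeff

theorem psi_eq (N t e : ℕ) (f : (ℤ × ℤ) →₀ LaurentSeries K) :
    psi K N t e f = scl (pb N t e f).coeff := by
  ext1 m
  rw [scl_apply]
  unfold psi pb
  rw [Finsupp.linearCombination_apply, Finsupp.sum, Finsupp.coe_finsetSum, Finset.sum_apply,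
    Finsupp.sum, AddMonoidAlgebra.coeff_sum, Finsupp.coe_finsetSum, Finset.sum_apply, sum_mul]
  apply sum_congr rfl
  intro m' _
  rw [Finsupp.smul_apply, scl_apply, AddMonoidAlgebra.coeff_smul, Finsupp.smul_apply, smul_eq_mul,
    smul_eq_mul]
  exact (mul_assoc _ _ _).symm

theorem WP_sup {N e : ℕ} (hN : 3 ≤ N) {f : (ℤ × ℤ) →₀ LaurentSeries K}
    (hfS : (↑f.support : Set (ℤ × ℤ)) ⊆ WP N e) :
    ∀ m ∈ f.support, 0 ≤ m.1 ∧ 0 ≤ m.2 ∧ m.1 + ((N - 2 : ℕ) : ℤ) * m.2 ≤ (((N - 2) * e : ℕ) : ℤ) := by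
  intro m hm
  obtain ⟨h1, h2, h3⟩ := hfS hm
  refine ⟨h1, h2, ?_⟩
  obtain ⟨M, rfl⟩ : ∃ M, N = M + 2 := ⟨N - 2, by omega⟩
  simp only [Nat.add_sub_cancel]
  push_cast at h3 ⊢
  linarith

theorem psi_inj [CharZero K] {N : ℕ} (hN : 3 ≤ N) (t e : ℕ) {f : (ℤ × ℤ) →₀ LaurentSeries K}
    (hfS : (↑f.support : Set (ℤ × ℤ)) ⊆ WP N e) (h : psi K N t e f = 0) : f = 0 := by
  rw [psi_eq] at h
  apply Pool.Agent.TH543.NagJ.comp_inj hN t (WP_sup hN hfS)
  have h1 : (pb N t e f).coeff = 0 := by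
    rw [← Finsupp.support_eq_empty, ← scl_support, h, Finsupp.support_zero]
  have h2 : pb N t e f = 0 := by
    ext m
    rw [h1]; rfl
  exact h2

/-- the leading parts are supported in the chart polygon -/
theorem psi_lead [CharZero K] {N : ℕ} (hN : 3 ≤ N) (t e : ℕ) {f : (ℤ × ℤ) →₀ LaurentSeries K}
    (hfS : (↑f.support : Set (ℤ × ℤ)) ⊆ WP N e) {n : ℤ}
    (hn2 : ∀ m, ∀ k < n, (psi K N t e f m).coeff k = 0) {m : ℤ × ℤ}
    (hm' : (psi K N t e f m).coeff n ≠ 0) : m ∈ S3 N t e := by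
  rw [psi_eq] at hm'
  simp only [psi_eq] at hn2
  set g := pb N t e f with hg
  have hDg := pb_Dg hN t e hfS
  rw [← hg] at hDg
  have hadj := pb_adjoin N t e f
  rw [← hg] at hadj
  have h1 : scl g.coeff m ≠ 0 := by intro h; rw [h] at hm'; simp at hm'
  have h2 : (scl g.coeff m).order = n := by
    refine le_antisymm (HahnSeries.order_le_of_coeff_ne_zero hm') ?_
    by_contra hlt
    exact h1 (HahnSeries.coeff_order_eq_zero.1 (hn2 m _ (not_le.1 hlt)))
  have h3 : m ∈ g.coeff.support := by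
    rw [← scl_support]; exact Finsupp.mem_support_iff.2 h1
  have h3' := Finsupp.mem_support_iff.1 h3
  obtain ⟨h4, l, hl⟩ := hDg m h3
  have hN' : (3 : ℤ) ≤ N := by exact_mod_cast hN
  have hl0 : 0 ≤ l := by
    have : (0 : ℤ) ≤ N * l := by rw [← hl]; linarith
    nlinarith
  have hmin : ∀ m' ∈ g.coeff.support, (g.coeff m).order + (m.1 + m.2) ≤
      (g.coeff m').order + (m'.1 + m'.2) := by
    intro m' hm''
    rw [← scl_order h3', ← scl_order (Finsupp.mem_support_iff.1 hm''), h2]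
    by_contra hlt
    have h5 := hn2 m' _ (not_le.1 hlt)
    have h6 : scl g.coeff m' ≠ 0 := by
      rw [← Finsupp.mem_support_iff, scl_support]; exact hm''
    exact h6 (HahnSeries.coeff_order_eq_zero.1 h5)
  have hg1 := gs_pos hN' t
  have hg2 := gs_pos hN' (t + 1)
  refine ⟨l, hl0, by linarith, ?_, ?_⟩
  · rcases le_or_gt 0 m.1 with h7 | h7
    · positivity
    · obtain ⟨j, hj1, hj2⟩ := Pool.Agent.TH494.NagG.lowest_left (by omega) g hadj m h3' h7 hmin
      obtain ⟨h8, -⟩ := hDg (m.1, j) (Finsupp.mem_support_iff.2 hj2)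
      simp only at h8
      have h9 : (m.2 - N * m.1) * gs N (t + 1) ≤ j * gs N (t + 1) :=
        mul_le_mul_of_nonneg_right hj1 hg2.le
      have h10 : 0 ≤ (N : ℤ) * (m.1 * gs N (t + 1) + l) := by nlinarith
      exact nonneg_of_mul_nonneg_right h10 (by omega)
  · rcases le_or_gt 0 m.2 with h7 | h7
    · positivity
    · obtain ⟨j, hj1, hj2⟩ := Pool.Agent.TH494.NagG.lowest_right (by omega) g hadj m h3' h7 hmin
      obtain ⟨h8, -⟩ := hDg (j, m.2) (Finsupp.mem_support_iff.2 hj2)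
      simp only at h8
      have h9 : (m.1 - N * m.2) * gs N t ≤ j * gs N t :=
        mul_le_mul_of_nonneg_right hj1 hg1.le
      have h10 : 0 ≤ (N : ℤ) * (m.2 * gs N t + l) := by nlinarith
      exact nonneg_of_mul_nonneg_right h10 (by omega)

/-- every monomial of the chart polygon is a leading part -/
theorem psi_lifts [CharZero K] {N : ℕ} (hN : 3 ≤ N) (t e : ℕ) {m : ℤ × ℤ} (hm : m ∈ S3 N t e) :
    ∃ f : (ℤ × ℤ) →₀ LaurentSeries K, (↑f.support : Set (ℤ × ℤ)) ⊆ WP N e ∧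
      ∀ m', ∀ k ≤ (0 : ℤ), (psi K N t e f m').coeff k = if m' = m ∧ k = 0 then 1 else 0 := by
  classical
  let V : Submodule (LaurentSeries K) ((ℤ × ℤ) →₀ LaurentSeries K) :=
    Finsupp.supported (LaurentSeries K) (LaurentSeries K) (WP N e)
  have hfinWP := WP_finite hN e
  have : Fintype (WP N e) := hfinWP.fintype
  have hV : ∀ f, f ∈ V ↔ (↑f.support : Set (ℤ × ℤ)) ⊆ WP N e := fun f => Finsupp.mem_supported _ _
  let E := Finsupp.supportedEquivFinsupp (M := LaurentSeries K) (R := LaurentSeries K) (WP N e)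
  have hVfin : Module.Finite (LaurentSeries K) V := Module.Finite.equiv E.symm
  have hVrk : Module.finrank (LaurentSeries K) V = (WP N e).ncard := by
    rw [LinearEquiv.finrank_eq E, Module.finrank_finsupp_self, ← Nat.card_eq_fintype_card]
    rfl
  let ψ : V →ₗ[LaurentSeries K] ((ℤ × ℤ) →₀ LaurentSeries K) := (psi K N t e).comp V.subtype
  have hψ : Function.Injective ψ := by
    rw [injective_iff_map_eq_zero]
    intro f hf
    exact Subtype.ext (psi_inj hN t e ((hV _).1 f.2) hf)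
  let W : Submodule (LaurentSeries K) ((ℤ × ℤ) →₀ LaurentSeries K) := LinearMap.range ψ
  have hWfin : Module.Finite (LaurentSeries K) W := Module.Finite.range ψ
  have hWrk : Module.finrank (LaurentSeries K) W = (WP N e).ncard := by
    rw [← hVrk]
    exact (LinearEquiv.finrank_eq (LinearEquiv.ofInjective ψ hψ)).symm
  have hS3 := S3_finite hN t e
  have hcard : hS3.toFinset.card ≤ Module.finrank (LaurentSeries K) W := by
    rw [hWrk, ← Set.ncard_eq_toFinset_card _ hS3]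
    exact S3_card hN t e
  obtain ⟨g, ⟨f, hf⟩, hg⟩ := exists_lifts hWfin hS3.toFinset hcard (by
    rintro _ ⟨f, rfl⟩ h1 m h2
    rw [Set.Finite.mem_toFinset]
    exact psi_lead hN t e ((hV _).1 f.2) h1 h2) m (by rwa [Set.Finite.mem_toFinset])
  refine ⟨f, (hV _).1 f.2, ?_⟩
  intro m' k hk
  rw [← hg m' k hk, ← hf]
  rfl

end psi

variable {ι : Type} {w : ι → ℕ} {N' : ℕ}

theorem Rk_chart {N : ℕ} (hN : 3 ≤ N) (t e : ℕ)
    (h : Rk w (S3 N (t + 2) e) N') : Rk w (WP N e) N' := by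
  obtain ⟨T, hTS, hTN, K, _, _, x, y, hx, hy, hT⟩ := h
  have hx' : ∀ i, tv K * cst (x i) ≠ 0 := fun i => (order_cst (hx i)).1
  have hy' : ∀ i, tv K * cst (y i) ≠ 0 := fun i => (order_cst (hy i)).1
  let z : ι → LaurentSeries K × LaurentSeries K × LaurentSeries K × LaurentSeries K :=
    fun i => zK N (tv K * cst (x i)) (tv K * cst (y i))
  have hne : ∀ i, s0 N (t + 2) (z i) ≠ 0 ∧ s1 N (t + 2) (z i) ≠ 0 ∧ s2 N (t + 2) (z i) ≠ 0 :=
    fun i => s012_ne hN (hx i) (hy i) t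
  rw [← hTN]
  refine Rk_lift (X := fun i => s1 N (t + 2) (z i) / s0 N (t + 2) (z i))
    (Y := fun i => s2 N (t + 2) (z i) / s0 N (t + 2) (z i) ^ (N - 2))
    (fun i => div_ne_zero (hne i).2.1 (hne i).1)
    (fun i => div_ne_zero (hne i).2.2 (pow_ne_zero _ (hne i).1)) T hT (psi K N (t + 2) e) (WP N e)
    ?_ (fun m hm => psi_lifts hN (t + 2) e (hTS hm))
  intro f hfS hfL i
  rw [psi_eq]
  apply LM_scl
  have hsup := WP_sup hN hfS
  refine Pool.Agent.TH671.NagI1.LM_of_mem_ker_pow (hx' i) (hy' i)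
    (evL _ _ (hx' i) (hy' i)) (evL_mon _ _ (hx' i) (hy' i)) ?_
  have ez := evL_zL (tv K * cst (x i)) (tv K * cst (y i)) (hx' i) (hy' i) N
  have m0 := map_s0 (evL _ _ (hx' i) (hy' i) : Lau (LaurentSeries K) →+* LaurentSeries K) N (t + 2) (zL _ N)
  have m1 := map_s1 (evL _ _ (hx' i) (hy' i) : Lau (LaurentSeries K) →+* LaurentSeries K) N (t + 2) (zL _ N)
  have m2 := map_s2 (evL _ _ (hx' i) (hy' i) : Lau (LaurentSeries K) →+* LaurentSeries K) N (t + 2) (zL _ N)
  have m0' : evL _ _ (hx' i) (hy' i) (s0 N (t + 2) (zL _ N)) = s0 N (t + 2) (z i) := by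
    rw [show z i = zK N (tv K * cst (x i)) (tv K * cst (y i)) from rfl, ← ez]; exact m0.symm
  have m1' : evL _ _ (hx' i) (hy' i) (s1 N (t + 2) (zL _ N)) = s1 N (t + 2) (z i) := by
    rw [show z i = zK N (tv K * cst (x i)) (tv K * cst (y i)) from rfl, ← ez]; exact m1.symm
  have m2' : evL _ _ (hx' i) (hy' i) (s2 N (t + 2) (zL _ N)) = s2 N (t + 2) (z i) := by
    rw [show z i = zK N (tv K * cst (x i)) (tv K * cst (y i)) from rfl, ← ez]; exact m2.symm
  refine Pool.Agent.TH698.mem_ker_pow_comp (div_ne_zero (hne i).2.1 (hne i).1)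
    (div_ne_zero (hne i).2.2 (pow_ne_zero _ (hne i).1)) (evL _ _ (hx' i) (hy' i)) ?_ ?_ ?_ hsup (hfL i)
  · rw [m0']; exact (hne i).1
  · rw [m0', m1', div_mul_cancel₀ _ (hne i).1]
  · rw [m0', m2', div_mul_cancel₀ _ (pow_ne_zero _ (hne i).1)]

end Pool.Agent.TH880.NB
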