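import Pool.Agent.W607.Core
import Pool.Agent.TH880.NB.Tor

/-!
Separation of jets over a field of power series, from the toric input `Tor` (after
`Pool.Agent.W607.coreF`).
-/

namespace Pool.Agent.TH880.NB

open MvPolynomial Pool.Agent.H932R5 Pool.Agent.W607

section CoreF

/-- **Separation of jets over a field extension.** -/
theorem coreFT (Φ : BB ℂ) (hm : Φ.Monic) (hirr : Irreducible Φ) (g : AA ℂ) (n : ℕ)
    (ε : ℝ) (hcl : Tor Φ.natDegree n ε) (c : ℕ) (a0 b0 θ0 : ℂ)
    (h0 : ev (K := ℂ) a0 b0 θ0 Φ = 0) (h1 : ev (K := ℂ) a0 b0 θ0 Φ.derivative ≠ 0)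
    (hg : aeval ![a0, b0] g ≠ 0) :
    ∃ E s : ℕ, 2 ≤ s ∧
      ((E : ℝ) + c) * √Φ.natDegree ≤ (1 + ε) * (√n * ((s : ℝ) - 1)) ∧
      ∃ (F : Type) (_ : Field F) (_ : Algebra ℂ F) (p : Fin n → Fin 2 → F)
        (Θ : Fin n → MvPolynomial (Fin 2) F),
        (∀ q, ev (K := ℂ) (X 0 + C (p q 0)) (X 1 + C (p q 1)) (Θ q) Φ ∈ (nn F) ^ s) ∧
        (∀ q, aeval (p q) g ≠ 0) ∧
        (∀ q, ev (K := ℂ) (p q 0) (p q 1) (constantCoeff (Θ q)) Φ.derivative ≠ 0) ∧
        ∀ q (f : MvPolynomial (Fin 2) F), ∃ G : BB F, InV Φ.natDegree E G ∧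
          ev (K := F) (X 0 + C (p q 0)) (X 1 + C (p q 1)) (Θ q) G - f ∈ (nn F) ^ s ∧
          ∀ q', q' ≠ q →
            ev (K := F) (X 0 + C (p q' 0)) (X 1 + C (p q' 1)) (Θ q') G ∈ (nn F) ^ s := by
  classical
  have hr : 1 ≤ Φ.natDegree := by
    rcases Nat.eq_zero_or_pos Φ.natDegree with h | h
    · exfalso
      rw [hm.natDegree_eq_zero] at h
      rw [h] at hirr
      exact hirr.not_isUnit isUnit_one
    · exact h
  let ι : ℂ →+* K1 := algebraMap ℂ K1
  -- the root on the line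
  obtain ⟨θ, hroot, hθ⟩ := exists_root (P := K1) ι Φ a0 b0 θ0 hm h0 h1
    (α := al ι a0 lam) (β := be ι b0) (by simp [al]) (by simp [be])
  have hli := Pool.Agent.W494.line_indep Φ hm hirr a0 b0 θ (by
    rw [ev_eq_evh, algebraMap_ps, algebraMap_ps]
    have : algebraMap ℂ (PowerSeries K1) = (PowerSeries.C).comp ι := by
      ext a : 1
      exact algebraMap_ps a
    rw [this]
    exact hroot)
  obtain ⟨c5, hc5⟩ := line_orders ι a0 b0 lam Φ hm hr θ hroot hli
  obtain ⟨E, s, hs, hnum, u, hu⟩ := hcl (max c c5)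
  refine ⟨E, s, hs, ?_, ?_⟩
  · refine le_trans ?_ hnum
    have : (c : ℝ) ≤ ((max c c5 : ℕ) : ℝ) := by exact_mod_cast le_max_left c c5
    gcongr
  -- the root in the family
  obtain ⟨W, hW⟩ : ∃ W, W = Φ.natDegree * E + 1 := ⟨_, rfl⟩
  have hW1 : 1 ≤ W := by omega
  obtain ⟨Θ, hΘ, hΘ0, hΘθ⟩ := exists_Theta ι a0 b0 lam W Φ hm θ0 h0 h1 hW1 θ hroot hθ
  let F := FractionRing (PowerSeries K1)
  let φ : PowerSeries K1 →+* F := algebraMap _ _
  have hφinj : Function.Injective φ := IsFractionRing.injective (PowerSeries K1) F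
  have hφ0 : ∀ x, φ x = 0 → x = 0 := fun x hx => hφinj (by rw [hx, map_zero])
  have hφX : φ PowerSeries.X ≠ 0 := fun h => PowerSeries.X_ne_zero (hφ0 _ h)
  let alg : Algebra ℂ F := (φ.comp ((PowerSeries.C).comp ι)).toAlgebra
  -- surjectivity
  have hspan : ∀ P ∈ Submodule.span K1 {P : MvPolynomial (Fin 2) K1 |
      ∃ i e : ℕ, i + Φ.natDegree * e + max c c5 ≤ Φ.natDegree * E ∧ P = X 0 ^ i * X 1 ^ e},
      ∃ h : RR K1, Good φ lam W s ι a0 b0 Θ Φ.natDegree E u h ∧
        PowerSeries.constantCoeff h = P := by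
    intro P hP
    induction hP using Submodule.span_induction with
    | mem x hx =>
      obtain ⟨i, e, hie, rfl⟩ := hx
      have he : e ≤ E := by
        have : Φ.natDegree * e ≤ Φ.natDegree * E := by omega
        exact Nat.le_of_mul_le_mul_left this hr
      have h2 : i + c5 ≤ Φ.natDegree * (E - e) := by
        rw [Nat.mul_sub]
        have := le_max_right c c5
        omega
      obtain ⟨G, hG, v, hv, hGv⟩ := hc5 (E - e) i h2
      obtain ⟨h, hh0, hh⟩ := leading ι a0 b0 lam W Θ θ hΘθ G i e (by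
        rw [hW]
        omega) v hv hGv
      refine ⟨h, good_of_leading hφX _ ?_ _ h hh, hh0⟩
      have h3 : (lf ι a0 b0 lam ^ e : AA K1).totalDegree ≤ e := by
        refine (totalDegree_pow _ _).trans ?_
        calc e * (lf ι a0 b0 lam : AA K1).totalDegree ≤ e * 1 :=
              Nat.mul_le_mul_left _ (totalDegree_lf ι a0 b0 lam)
          _ = e := mul_one e
      exact (InV.C_mul h3 hG).mono (by omega)
    | zero => exact ⟨0, Good.zero, map_zero _⟩
    | add x y _ _ hx hy =>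
      obtain ⟨h, hh, rfl⟩ := hx
      obtain ⟨h', hh', rfl⟩ := hy
      exact ⟨h + h', hh.add hh', map_add _ _ _⟩
    | smul a x _ hx =>
      obtain ⟨h, hh, rfl⟩ := hx
      refine ⟨dd (PowerSeries.C a) * h, hh.dd_mul _, ?_⟩
      rw [map_mul, dd_C, constantCoeff_cK, smul_eq_C_mul]
  have hsurj : ∀ f : Fin n → MvPolynomial (Fin 2) K1, ∃ h : RR K1,
      Good φ lam W s ι a0 b0 Θ Φ.natDegree E u h ∧
      ∀ q, sh (u q) (PowerSeries.constantCoeff h) - f q ∈ (nn K1) ^ s := by
    intro f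
    obtain ⟨G, hG, hG'⟩ := hu f
    obtain ⟨h, hh, hh'⟩ := hspan G hG
    refine ⟨h, hh, fun q => ?_⟩
    rw [hh']
    exact hG' q
  let p : Fin n → Fin 2 → F := fun q => ![φ (pA lam W ι a0 (u q)), φ (pB ι b0 (u q))]
  -- the truncated root
  let Θ' : Fin n → MvPolynomial (Fin 2) F := fun q =>
    chg (φ PowerSeries.X) (φ (PowerSeries.C lam)) W
      (MvPowerSeries.truncTotal s ((MvPowerSeries.map φ) (jt (u q) Θ)))
  have hΘ' : ∀ q, Ideal.Quotient.mk ((nn F) ^ s) (Θ' q) = La φ lam W s (u q) Θ := by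
    intro q
    rw [La_of_coeff φ lam W s (u q) Θ
      (MvPowerSeries.truncTotal s ((MvPowerSeries.map φ) (jt (u q) Θ)))]
    intro β hβ
    rw [MvPowerSeries.coeff_truncTotal _ hβ, MvPowerSeries.coeff_map]
  have hmkF : ∀ q (G : BB F), Ideal.Quotient.mk ((nn F) ^ s)
      (ev (K := F) (X 0 + C (p q 0)) (X 1 + C (p q 1)) (Θ' q) G) =
      eF φ lam W s ι a0 b0 Θ u q G := by
    intro q G
    rw [ev_eq_evh, evh_comp_apply, hΘ', eF]
    rfl
  have hmkC : ∀ q (G : BB ℂ), Ideal.Quotient.mk ((nn F) ^ s)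
      (ev (K := ℂ) (X 0 + C (p q 0)) (X 1 + C (p q 1)) (Θ' q) G) =
      La φ lam W s (u q) (evh (cK.comp ι) (Al ι a0 lam W) (Be ι b0) Θ G) := by
    intro q G
    rw [ev_eq_evh, evh_comp_apply, hΘ', evh_comp_apply, La_Al φ lam W s ι a0 hφX,
      La_Be φ lam W s ι b0 hφX]
    congr 2
    ext a : 1
    show Ideal.Quotient.mk _ (C (φ (PowerSeries.C (ι a)))) = La φ lam W s (u q) (cK (ι a))
    rw [La_cK]
  have hcA : ∀ q, PowerSeries.constantCoeff (pA lam W ι a0 (u q)) = ι a0 := by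
    intro q
    simp [pA, zero_pow (show W ≠ 0 by omega)]
  have hcB : ∀ q, PowerSeries.constantCoeff (pB ι b0 (u q)) = ι b0 := by
    intro q
    simp [pB]
  refine ⟨F, inferInstance, alg, p, Θ', ?_, ?_, ?_, ?_⟩
  · intro q
    rw [← Ideal.Quotient.eq_zero_iff_mem, hmkC, hΘ, map_zero]
  · intro q h
    have h2 : (aeval (p q) g : F) = φ (MvPolynomial.eval₂Hom ((PowerSeries.C).comp ι)
        ![pA lam W ι a0 (u q), pB ι b0 (u q)] g) := by
      have h3 : ((aeval (p q) : AA ℂ →ₐ[ℂ] F) : AA ℂ →+* F) =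
          φ.comp (MvPolynomial.eval₂Hom ((PowerSeries.C).comp ι)
            ![pA lam W ι a0 (u q), pB ι b0 (u q)]) := by
        refine MvPolynomial.ringHom_ext (fun a => ?_) fun i => ?_
        · rw [RingHom.comp_apply, eval₂Hom_C]
          exact aeval_C _ _
        · rw [RingHom.comp_apply, eval₂Hom_X']
          refine (aeval_X _ _).trans ?_
          fin_cases i <;> rfl
      exact congrArg (fun f : AA ℂ →+* F => f g) h3
    rw [h2] at h
    have h4 := hφ0 _ h
    have h5 := congrArg PowerSeries.constantCoeff h4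
    rw [map_zero] at h5
    have h6 : PowerSeries.constantCoeff (MvPolynomial.eval₂Hom ((PowerSeries.C).comp ι)
        ![pA lam W ι a0 (u q), pB ι b0 (u q)] g) = ι (aeval ![a0, b0] g) := by
      have h7 : (PowerSeries.constantCoeff (R := K1)).comp
          (MvPolynomial.eval₂Hom ((PowerSeries.C).comp ι)
            ![pA lam W ι a0 (u q), pB ι b0 (u q)]) =
          ι.comp ((aeval ![a0, b0] : AA ℂ →ₐ[ℂ] ℂ) : AA ℂ →+* ℂ) := by
        refine MvPolynomial.ringHom_ext (fun a => ?_) fun i => ?_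
        · simp
        · fin_cases i
          · simp [hcA q]
          · simp [hcB q]
      exact congrArg (fun f : AA ℂ →+* K1 => f g) h7
    rw [h6, map_eq_zero] at h5
    exact hg h5
  · intro q h
    have hc : constantCoeff (Θ' q) = φ (MvPowerSeries.coeff 0 (jt (u q) Θ)) := by
      have h2 : ∀ P : MvPolynomial (Fin 2) F,
          constantCoeff (chg (φ PowerSeries.X) (φ (PowerSeries.C lam)) W P) =
            constantCoeff P := by
        intro P
        have h3 : (constantCoeff : MvPolynomial (Fin 2) F →+* F).comp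
            (chg (φ PowerSeries.X) (φ (PowerSeries.C lam)) W :
              MvPolynomial (Fin 2) F →+* MvPolynomial (Fin 2) F) = constantCoeff := by
          refine MvPolynomial.ringHom_ext (fun a => ?_) fun i => ?_
          · show constantCoeff (chg (φ PowerSeries.X) (φ (PowerSeries.C lam)) W (C a)) = _
            rw [show chg (φ PowerSeries.X) (φ (PowerSeries.C lam)) W (C a) = C a from
              (chg (φ PowerSeries.X) (φ (PowerSeries.C lam)) W).commutes a]
          · fin_cases i <;> simp [chg]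
        exact congrArg (fun f : MvPolynomial (Fin 2) F →+* F => f P) h3
      rw [h2, constantCoeff_eq, MvPowerSeries.coeff_truncTotal _ (by
        rw [map_zero]
        omega), MvPowerSeries.coeff_map]
    have hc0 : PowerSeries.constantCoeff (MvPowerSeries.coeff 0 (jt (u q) Θ)) = ι θ0 := by
      rw [constantCoeff_jt, hΘ0]
      show coeff 0 (sh (u q) (C (ι θ0))) = ι θ0
      rw [show sh (u q) (C (ι θ0)) = C (ι θ0) from (sh (u q)).commutes _, coeff_C, if_pos rfl]
    have h2 : (ev (K := ℂ) (p q 0) (p q 1) (constantCoeff (Θ' q)) Φ.derivative : F) =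
        φ (evh ((PowerSeries.C).comp ι) (pA lam W ι a0 (u q)) (pB ι b0 (u q))
          (MvPowerSeries.coeff 0 (jt (u q) Θ)) Φ.derivative) := by
      rw [ev_eq_evh, evh_comp_apply, hc]
      rfl
    rw [h2] at h
    have h4 := hφ0 _ h
    have h5 := congrArg PowerSeries.constantCoeff h4
    rw [constantCoeff_evh ι Φ.derivative a0 b0 θ0 (hcA q) (hcB q) hc0, map_zero,
      map_eq_zero] at h5
    exact h1 h5
  · intro q f
    obtain ⟨G, hG, hG1, hG2⟩ := separation (φ := φ) (l := lam) (W := W) (s := s) (ι := ι)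
      (a0 := a0) (b0 := b0) (Θ := Θ) (r := Φ.natDegree) (E := E) (u := u) hφX hsurj q f
    refine ⟨G, hG, ?_, fun q' hq' => ?_⟩
    · rw [← Ideal.Quotient.mk_eq_mk_iff_sub_mem, hmkF, hG1]
    · rw [← Ideal.Quotient.eq_zero_iff_mem, hmkF, hG2 q' hq']

end CoreF

end Pool.Agent.TH880.NB
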