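import Pool.Agent.TH176.Nag.Stair3

/-! The chart polygons have at most as many lattice points as the weighted plane. -/

namespace Pool.Agent.TH880.NB

open Finset Pool.Agent.TH176.Nag

theorem S3_zero {N : ℕ} (hN : 3 ≤ N) (e : ℕ) : ∃ φ : ℤ × ℤ → ℤ × ℤ,
    Set.MapsTo φ (S3 N 0 e) (WP N e) ∧ Set.InjOn φ (S3 N 0 e) := by
  have hN0 : (0 : ℤ) < N := by omega
  let L : ℤ × ℤ → ℤ := fun m => (((N : ℤ) - 2) * e - m.1 - m.2) / N
  have hL : ∀ m ∈ S3 N 0 e, 0 ≤ L m ∧ N * L m + m.1 + m.2 = ((N : ℤ) - 2) * e ∧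
      0 ≤ m.1 + L m ∧ 0 ≤ m.2 + L m := by
    rintro m ⟨l, h1, h2, h3, h4⟩
    simp only [gs, mul_one] at h2 h3 h4
    have hl : L m = l := by
      have e1 : ((N : ℤ) - 2) * e - m.1 - m.2 = N * l := by linarith
      simp only [L]
      rw [e1, Int.mul_ediv_cancel_left _ hN0.ne']
    rw [hl]
    refine ⟨h1, by linarith, ?_, ?_⟩
    · simpa [gs] using h3
    · simpa using h4
  refine ⟨fun m => (m.1 + L m, L m), ?_, ?_⟩
  · intro m hm
    obtain ⟨h1, h2, h3, h4⟩ := hL m hm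
    refine ⟨h3, h1, ?_⟩
    simp only
    linarith
  · intro m hm m' hm' h
    obtain ⟨h1, h2, h3, h4⟩ := hL m hm
    obtain ⟨h1', h2', h3', h4'⟩ := hL m' hm'
    simp only [Prod.mk.injEq] at h
    obtain ⟨h5, h6⟩ := h
    rw [← h6] at h2' h5
    have h7 : m.1 = m'.1 := by linarith
    ext
    · exact h7
    · rw [h7] at h2; linarith

theorem S3_step {N : ℕ} (hN : 3 ≤ N) (t e : ℕ) : ∃ φ : ℤ × ℤ → ℤ × ℤ,
    Set.MapsTo φ (S3 N (t + 1) e) (S3 N t e) ∧ Set.InjOn φ (S3 N (t + 1) e) := by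
  have hN' : (3 : ℤ) ≤ N := by exact_mod_cast hN
  have hg0 := gs_pos hN' t
  have hg1 := gs_pos hN' (t + 1)
  have hrec : gs N (t + 1 + 1) = N * gs N (t + 1) - gs N t := gs_two t
  refine ⟨fun m => if 0 ≤ m.1 then (-m.2, m.1) else (N * m.1 - m.2, m.1), ?_, ?_⟩
  · rintro m ⟨l, h1, h2, h3, h4⟩
    by_cases hm : 0 ≤ m.1
    · simp only [if_pos hm]
      refine ⟨l + m.2 * gs N (t + 1), by linarith, ?_, ?_, ?_⟩
      · simp only
        rw [hrec] at h2
        linear_combination h2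
      · simp only
        have e1 : -m.2 * gs N (t + 1) + (l + m.2 * gs N (t + 1)) = l := by ring
        rw [e1]; exact h1
      · simp only
        have : 0 ≤ m.1 * gs N t := mul_nonneg hm hg0.le
        linarith
    · simp only [if_neg hm]
      rw [not_le] at hm
      refine ⟨l - m.1 * gs N t + m.2 * gs N (t + 1), ?_, ?_, ?_, ?_⟩
      · have : 0 ≤ -m.1 * gs N t := mul_nonneg (by linarith) hg0.le
        linarith
      · simp only
        rw [hrec] at h2
        linear_combination h2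
      · simp only
        rw [hrec] at h3
        have e1 : (N * m.1 - m.2) * gs N (t + 1) + (l - m.1 * gs N t + m.2 * gs N (t + 1)) =
          m.1 * (N * gs N (t + 1) - gs N t) + l := by ring
        rw [e1]; exact h3
      · simp only
        have e1 : m.1 * gs N t + (l - m.1 * gs N t + m.2 * gs N (t + 1)) = m.2 * gs N (t + 1) + l := by ring
        rw [e1]; exact h4
  · intro m _ m' _ h
    simp only at h
    have h1 : m.1 = m'.1 := by
      have := congrArg Prod.snd h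
      split_ifs at this <;> exact this
    have h2 := congrArg Prod.fst h
    rw [h1] at h2
    ext
    · exact h1
    · split_ifs at h2 <;> simp only at h2 <;> linarith

theorem S3_inj {N : ℕ} (hN : 3 ≤ N) (t e : ℕ) : ∃ φ : ℤ × ℤ → ℤ × ℤ,
    Set.MapsTo φ (S3 N t e) (WP N e) ∧ Set.InjOn φ (S3 N t e) := by
  induction t with
  | zero => exact S3_zero hN e
  | succ t ih =>
    obtain ⟨φ, h1, h2⟩ := ih
    obtain ⟨ψ, h3, h4⟩ := S3_step hN t e
    exact ⟨φ ∘ ψ, h1.comp h3, h2.comp h4 h3⟩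

theorem WP_finite {N : ℕ} (hN : 3 ≤ N) (e : ℕ) : (WP N e).Finite := by
  have hN' : (3 : ℤ) ≤ N := by exact_mod_cast hN
  apply Set.Finite.subset (Set.finite_Icc ((0, 0) : ℤ × ℤ) (((N : ℤ) - 2) * e, ((N : ℤ) - 2) * e))
  rintro ⟨a, b⟩ ⟨h1, h2, h3⟩
  simp only at h1 h2 h3
  rw [Set.mem_Icc, Prod.mk_le_mk, Prod.mk_le_mk]
  refine ⟨⟨h1, h2⟩, ?_, ?_⟩
  · nlinarith
  · nlinarith

theorem S3_finite {N : ℕ} (hN : 3 ≤ N) (t e : ℕ) : (S3 N t e).Finite := by
  obtain ⟨φ, h1, h2⟩ := S3_inj hN t e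
  exact Set.Finite.of_injOn h1 h2 (WP_finite hN e)

theorem S3_card {N : ℕ} (hN : 3 ≤ N) (t e : ℕ) : (S3 N t e).ncard ≤ (WP N e).ncard := by
  obtain ⟨φ, h1, h2⟩ := S3_inj hN t e
  exact Set.ncard_le_ncard_of_injOn φ h1 h2 (WP_finite hN e)

end Pool.Agent.TH880.NB
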