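import Pool.Agent.TH880.NB.Rk

/-! Flattening for ranks. -/

namespace Pool.Agent.TH880.NB

open Finset Pool.Agent.TH176.Nag

variable {ι : Type} {w : ι → ℕ}

section bin

/-- finite differences of binomial coefficients -/
theorem diff_choose (k : ℕ) : ∀ B l : ℕ,
    ∑ j ∈ range (k + 1), (-1 : ℤ) ^ (k - j) * (k.choose j : ℤ) * ((B + j).choose l : ℤ) =
      if k ≤ l then (B.choose (l - k) : ℤ) else 0 := by
  intro B l
  have h1 := fwdDiff_iter_eq_sum_shift (1 : ℕ) (fun x : ℕ => ((x.choose l : ℕ) : ℤ)) k B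
  have h2 : ∑ j ∈ range (k + 1), (-1 : ℤ) ^ (k - j) * (k.choose j : ℤ) * ((B + j).choose l : ℤ) =
      (fwdDiff (1 : ℕ))^[k] (fun x : ℕ => ((x.choose l : ℕ) : ℤ)) B := by
    rw [h1]
    apply sum_congr rfl
    intro j _
    simp [smul_eq_mul]
  rw [h2]
  clear h1 h2
  by_cases hkl : k ≤ l
  · rw [if_pos hkl]
    obtain ⟨d, rfl⟩ := Nat.exists_eq_add_of_le hkl
    rw [fwdDiff_iter_choose]
    simp
  · rw [if_neg hkl]
    obtain ⟨d, rfl⟩ := Nat.exists_eq_add_of_lt (not_le.1 hkl)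
    have e : l + d + 1 = (d + 1) + l := by ring
    rw [e, Function.iterate_add_apply]
    have h3 := fwdDiff_iter_choose 0 l
    simp only [add_zero] at h3
    rw [h3]
    have h4 : (fun x : ℕ => ((x.choose 0 : ℕ) : ℤ)) = fun _ => (1 : ℤ) := by
      funext x; simp
    rw [h4, Function.iterate_succ_apply]
    have h5 : fwdDiff (1 : ℕ) (fun _ : ℕ => (1 : ℤ)) = fun _ => 0 := by
      funext x; simp [fwdDiff]
    rw [h5]
    have h6 : ∀ d : ℕ, (fwdDiff (1 : ℕ))^[d] (fun _ : ℕ => (0 : ℤ)) = fun _ => 0 := by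
      intro d
      induction d with
      | zero => rfl
      | succ d ih =>
        rw [Function.iterate_succ_apply', ih]
        funext x; simp [fwdDiff]
    rw [h6]

end bin

section flat
variable {K : Type} [Field K]

/-- the flattening as a linear map -/
noncomputable def fltL (N0 : ℕ) :
    ((ℤ × ℤ) →₀ LaurentSeries K) →ₗ[LaurentSeries K] ((ℤ × ℤ) →₀ LaurentSeries K) :=
  Finsupp.linearCombination (LaurentSeries K) fun m : ℤ × ℤ =>
    ∑ j ∈ range ((m.2 + (N0 : ℤ)).toNat + 1),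
      Finsupp.single (m.1, (j : ℤ)) (tv K ^ j * ((m.2 + (N0 : ℤ)).toNat.choose j : LaurentSeries K))

theorem fltL_eq (N0 : ℕ) (f : (ℤ × ℤ) →₀ LaurentSeries K) : fltL N0 f = flt N0 f := by
  unfold fltL flt
  rw [Finsupp.linearCombination_apply, Finsupp.sum]
  apply sum_congr rfl
  intro m _
  rw [smul_sum]
  apply sum_congr rfl
  intro j _
  rw [Finsupp.smul_single, smul_eq_mul]
  congr 1
  ring

/-- the preimage of the monomial `m`, with exponents in the fibre `b, b + 1, …` -/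
noncomputable def pre (m : ℤ × ℤ) (b : ℤ) : (ℤ × ℤ) →₀ LaurentSeries K :=
  ∑ j ∈ range (m.2.toNat + 1), Finsupp.single (m.1, b + (j : ℤ))
    ((tv K ^ m.2.toNat)⁻¹ * (((-1 : ℤ) ^ (m.2.toNat - j) * (m.2.toNat.choose j : ℤ) : ℤ) : LaurentSeries K))

theorem pre_support {m : ℤ × ℤ} {b : ℤ} {S : Set (ℤ × ℤ)}
    (h : ∀ j : ℕ, j ≤ m.2.toNat → ((m.1, b + (j : ℤ)) : ℤ × ℤ) ∈ S) :
    (↑(pre (K := K) m b).support : Set (ℤ × ℤ)) ⊆ S := by
  classical
  intro m' hm'
  rw [mem_coe, Finsupp.mem_support_iff] at hm'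
  unfold pre at hm'
  rw [Finsupp.coe_finsetSum, Finset.sum_apply] at hm'
  obtain ⟨j, hj, hj'⟩ := exists_ne_zero_of_sum_ne_zero hm'
  rw [Finsupp.single_apply] at hj'
  have : (m.1, b + (j : ℤ)) = m' := by
    by_contra hne
    rw [if_neg hne] at hj'
    exact hj' rfl
  rw [← this]
  exact h j (by have := mem_range.1 hj; omega)

theorem fltL_single (N0 : ℕ) (m : ℤ × ℤ) (c : LaurentSeries K) (a : ℤ) (l : ℕ) :
    fltL N0 (Finsupp.single m c) (a, (l : ℤ)) =
      if m.1 = a then tv K ^ l * ((m.2 + (N0 : ℤ)).toNat.choose l : LaurentSeries K) * c else 0 := by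
  classical
  unfold fltL
  rw [Finsupp.linearCombination_single, Finsupp.smul_apply, Finsupp.coe_finsetSum, Finset.sum_apply]
  simp only [Finsupp.single_apply, Prod.mk.injEq, Nat.cast_inj]
  by_cases hm : m.1 = a
  · simp only [hm, true_and, if_true]
    rw [Finset.sum_ite_eq' (range ((m.2 + (N0 : ℤ)).toNat + 1)) l]
    split_ifs with h
    · rw [smul_eq_mul]; ring
    · have : (m.2 + (N0 : ℤ)).toNat < l := by
        by_contra h'
        exact h (mem_range.2 (by omega))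
      rw [Nat.choose_eq_zero_of_lt this]; simp
  · simp [hm]

theorem fltL_pre {N0 : ℕ} {m : ℤ × ℤ} {b : ℤ} (hb : 0 ≤ b + N0) (a : ℤ) (l : ℕ) :
    fltL (K := K) N0 (pre m b) (a, (l : ℤ)) = if m.1 = a ∧ m.2.toNat ≤ l then
      (tv K ^ (l - m.2.toNat)) * ((b + N0).toNat.choose (l - m.2.toNat) : LaurentSeries K) else 0 := by
  classical
  unfold pre
  rw [map_sum, Finsupp.coe_finsetSum, Finset.sum_apply]
  simp only [fltL_single]
  by_cases hm : m.1 = a
  · simp only [hm, if_true, true_and]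
    obtain ⟨B, hB⟩ := Int.eq_ofNat_of_zero_le hb
    have hB' : (b + (N0 : ℤ)).toNat = B := by omega
    have ht : tv K ≠ 0 := by simp [tv]
    have h1 : ∀ j : ℕ, (b + (j : ℤ) + (N0 : ℤ)).toNat = B + j := by intro j; omega
    simp only [h1, hB']
    set k := m.2.toNat
    have h2 : ∑ j ∈ range (k + 1), tv K ^ l * ((B + j).choose l : LaurentSeries K) *
        ((tv K ^ k)⁻¹ * (((-1 : ℤ) ^ (k - j) * (k.choose j : ℤ) : ℤ) : LaurentSeries K)) =
        tv K ^ l * (tv K ^ k)⁻¹ * ((∑ j ∈ range (k + 1), (-1 : ℤ) ^ (k - j) * (k.choose j : ℤ) *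
          ((B + j).choose l : ℤ) : ℤ) : LaurentSeries K) := by
      rw [Int.cast_sum, mul_sum]
      apply sum_congr rfl
      intro j _
      push_cast
      ring
    rw [h2, diff_choose]
    by_cases hkl : k ≤ l
    · rw [if_pos hkl, if_pos hkl]
      obtain ⟨d, rfl⟩ := Nat.exists_eq_add_of_le hkl
      simp only [Nat.add_sub_cancel_left]
      rw [pow_add]
      have h3 : tv K ^ k ≠ 0 := pow_ne_zero _ ht
      push_cast
      field_simp
    · rw [if_neg hkl, if_neg hkl]; simp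
  · simp [hm]

theorem coeff_tv_pow (d : ℕ) (B : ℕ) (k : ℤ) (hk : k ≤ 0) :
    (tv K ^ d * ((B.choose d : ℕ) : LaurentSeries K)).coeff k = if d = 0 ∧ k = 0 then 1 else 0 := by
  have h1 : ((B.choose d : ℕ) : LaurentSeries K) = cst ((B.choose d : ℕ) : K) := by simp [cst]
  rw [h1, coeff_tv_pow_mul]
  rcases Nat.eq_zero_or_pos d with hd | hd
  · subst hd
    simp only [Nat.choose_zero_right, Nat.cast_one, Nat.cast_zero, sub_zero, true_and]
    by_cases hk0 : k = 0
    · subst hk0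
      rw [if_pos rfl]
      simp [cst]
    · rw [if_neg hk0]
      simp [cst, HahnSeries.coeff_one, hk0]
  · rw [if_neg (by omega)]
    have h2 : k - (d : ℤ) ≠ 0 := by omega
    simp only [cst]
    rw [HahnSeries.C_apply, HahnSeries.coeff_single_of_ne h2]

end flat

/-- the flattening lemma for ranks, covector `(1, 0)` -/
theorem Rk_flat0 {S S' : Set (ℤ × ℤ)} {N : ℕ}
    (hS : ∀ m ∈ S', 0 ≤ m.2 ∧ ∃ b : ℤ, ∀ j : ℕ, (j : ℤ) ≤ m.2 → ((m.1, b + (j : ℤ)) : ℤ × ℤ) ∈ S)
    (h : Rk w S' N) : Rk w S N := by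
  classical
  obtain ⟨T, hTS, hTN, K, _, _, x, y, hx, hy, hT⟩ := h
  have hS0 : ∀ m : ℤ × ℤ, m ∈ T → 0 ≤ m.2 := fun m hm => (hS m (hTS hm)).1
  have hS1 : ∀ m : ℤ × ℤ, ∃ b : ℤ, m ∈ T → ∀ j : ℕ, (j : ℤ) ≤ m.2 → ((m.1, b + (j : ℤ)) : ℤ × ℤ) ∈ S := by
    intro m
    by_cases hm : m ∈ T
    · obtain ⟨b, hb⟩ := (hS m (hTS hm)).2
      exact ⟨b, fun _ => hb⟩
    · exact ⟨0, fun h => absurd h hm⟩
  choose b hb using hS1
  obtain ⟨N0, hN0⟩ : ∃ N0 : ℕ, ∀ m ∈ T, 0 ≤ b m + (N0 : ℤ) := by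
    refine ⟨∑ m ∈ T, (b m).natAbs, fun m hm => ?_⟩
    have : (b m).natAbs ≤ ∑ m ∈ T, (b m).natAbs :=
      single_le_sum (f := fun m : ℤ × ℤ => (b m).natAbs) (fun _ _ => Nat.zero_le _) hm
    omega
  have hz : ∀ i, 1 + tv K * cst (y i) ≠ 0 := by
    intro i h
    have h1 := congrArg (fun u : LaurentSeries K => u.coeff 0) h
    simp only [HahnSeries.coeff_add, coeff_mul_cst, HahnSeries.coeff_zero] at h1
    have h2 : (tv K).coeff 0 = 0 := by simp [tv]
    rw [h2] at h1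
    simp at h1
  have hx' : ∀ i, cst (x i) ≠ 0 := fun i => by simpa using hx i
  rw [← hTN]
  refine Rk.mono (Rk_lift (X := fun i => cst (x i)) (Y := fun i => 1 + tv K * cst (y i)) hx' hz T hT
    (fltL N0) {m | m ∈ S ∧ 0 ≤ m.2 + (N0 : ℤ)} ?_ ?_) (fun m hm => hm.1)
  · intro f hf hL i
    rw [fltL_eq]
    exact LM_flt (fun m hm => (hf hm).2) (hz i) (hL i)
  · intro m hm
    have hm2 := hS0 m hm
    refine ⟨pre m (b m), ?_, ?_⟩
    · apply pre_support
      intro j hj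
      refine ⟨hb m hm j (by omega), ?_⟩
      have := hN0 m hm
      simp only; omega
    · rintro ⟨a, l⟩ k hk
      by_cases hl : l < 0
      · rw [fltL_eq, flt_apply_neg _ _ _ _ hl, HahnSeries.coeff_zero, if_neg]
        rintro ⟨h1, -⟩
        rw [← h1] at hm2
        simp only at hm2
        omega
      · obtain ⟨l', rfl⟩ := Int.eq_ofNat_of_zero_le (not_lt.1 hl)
        rw [fltL_pre (hN0 m hm)]
        by_cases h1 : m.1 = a ∧ m.2.toNat ≤ l'
        · rw [if_pos h1, coeff_tv_pow _ _ _ hk]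
          have : (l' - m.2.toNat = 0 ∧ k = 0) ↔ ((a, (l' : ℤ)) = m ∧ k = 0) := by
            constructor
            · rintro ⟨h2, h3⟩
              refine ⟨?_, h3⟩
              ext
              · exact h1.1.symm
              · simp only; omega
            · rintro ⟨h2, h3⟩
              refine ⟨?_, h3⟩
              rw [← h2]
              simp
          simp only [this]
        · rw [if_neg h1, HahnSeries.coeff_zero, if_neg]
          rintro ⟨h2, -⟩
          apply h1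
          rw [← h2]
          simp

section image
variable {S S' : Set (ℤ × ℤ)} {N : ℕ}

/-- affine images of exponents -/
theorem Rk.image (h : Rk w S N) (p q r s u v : ℤ) (hdet : 0 < p * s - q * r)
    (hS : ∀ n ∈ S, ((p * n.1 + q * n.2 + u, r * n.1 + s * n.2 + v) : ℤ × ℤ) ∈ S') : Rk w S' N := by
  classical
  obtain ⟨T, hTS, hTN, hT⟩ := h
  have hinj : Function.Injective fun n : ℤ × ℤ =>
      ((p * n.1 + q * n.2 + u, r * n.1 + s * n.2 + v) : ℤ × ℤ) := by
    rintro ⟨a, b⟩ ⟨a', b'⟩ h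
    simp only [Prod.mk.injEq] at h
    obtain ⟨h1, h2⟩ := h
    have e1 : (p * s - q * r) * (a - a') = 0 := by linear_combination s * h1 - q * h2
    have e2 : (p * s - q * r) * (b - b') = 0 := by linear_combination p * h2 - r * h1
    have e3 := (mul_eq_zero.1 e1).resolve_left hdet.ne'
    have e4 := (mul_eq_zero.1 e2).resolve_left hdet.ne'
    ext <;> simp <;> omega
  refine ⟨T.image fun n => (p * n.1 + q * n.2 + u, r * n.1 + s * n.2 + v), ?_, ?_, ?_⟩
  · intro m hm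
    rw [mem_coe, mem_image] at hm
    obtain ⟨n, hn, rfl⟩ := hm
    exact hS n (hTS hn)
  · rw [card_image_of_injective _ hinj, hTN]
  · refine (hT.sub p q r s u v hdet).mono ?_
    intro m hm
    rw [mem_coe, mem_image] at hm
    obtain ⟨n, hn, rfl⟩ := hm
    exact ⟨n, hn, rfl⟩

/-- reflection -/
theorem Rk.refl (h : Rk w S N) (hS : ∀ n ∈ S, ((-n.1, n.2) : ℤ × ℤ) ∈ S') : Rk w S' N := by
  classical
  obtain ⟨T, hTS, hTN, hT⟩ := h
  have hinj : Function.Injective fun n : ℤ × ℤ => ((-n.1, n.2) : ℤ × ℤ) := by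
    rintro ⟨a, b⟩ ⟨a', b'⟩ h
    simp only [Prod.mk.injEq, neg_inj] at h
    exact Prod.ext h.1 h.2
  refine ⟨T.image fun n => (-n.1, n.2), ?_, ?_, ?_⟩
  · intro m hm
    rw [mem_coe, mem_image] at hm
    obtain ⟨n, hn, rfl⟩ := hm
    exact hS n (hTS hn)
  · rw [card_image_of_injective _ hinj, hTN]
  · refine hT.comap (-1) 0 0 1 0 0 (by norm_num) ?_
    intro m hm
    rw [mem_coe, mem_image] at hm
    obtain ⟨n, hn, rfl⟩ := hm
    simp only
    have : ((-1 * -n.1 + 0 * n.2 + 0, 0 * -n.1 + 1 * n.2 + 0) : ℤ × ℤ) = n := by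
      ext <;> simp
    rw [this]
    exact hn

end image

/-- flattening in a general direction -/
theorem Rk_flat {S S' : Set (ℤ × ℤ)} {N : ℕ} (x y u v : ℤ) (hdet : x * u + y * v = 1)
    (hS : ∀ m ∈ S', 0 ≤ m.2 ∧ ∃ p : ℤ × ℤ, x * p.1 + y * p.2 = m.1 ∧
      ∀ j : ℕ, (j : ℤ) ≤ m.2 → ((p.1 - y * j, p.2 + x * j) : ℤ × ℤ) ∈ S)
    (h : Rk w S' N) : Rk w S N := by
  have h1 : Rk w {m : ℤ × ℤ | ((u * m.1 - y * m.2, v * m.1 + x * m.2) : ℤ × ℤ) ∈ S} N := by
    refine Rk_flat0 ?_ h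
    intro m hm
    obtain ⟨h2, p, hp, hp'⟩ := hS m hm
    refine ⟨h2, -v * p.1 + u * p.2, fun j hj => ?_⟩
    have h3 := hp' j hj
    simp only [Set.mem_setOf_eq]
    convert h3 using 2
    · rw [← hp]; linear_combination p.1 * hdet
    · rw [← hp]; linear_combination p.2 * hdet
  refine h1.image u (-y) v x 0 0 (by rw [show u * x - -y * v = x * u + y * v by ring, hdet]; norm_num) ?_
  intro n hn
  simp only [Set.mem_setOf_eq] at hn
  convert hn using 2
  · ring
  · ring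

end Pool.Agent.TH880.NB
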