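import Pool.Agent.TH880.NB.Chart
import Pool.Agent.TH176.Nag.Limit

/-! The limit of the staircase, for ranks, and the asymptotic form. -/

namespace Pool.Agent.TH880.NB

open Finset Pool.Agent.TH176.Nag

variable {ι : Type} {w : ι → ℕ} {N' : ℕ}

theorem Rk_Q3 {N : ℕ} (hN : 3 ≤ N) (t e : ℕ)
    (h : Rk w (Q3 N (t + 2) e) N') : Rk w (WP N e) N' := by
  apply Rk_chart hN t e
  have hN' : (3 : ℤ) ≤ N := by exact_mod_cast hN
  obtain ⟨c, hc⟩ := (gs_mod (N := (N : ℤ)) (t + 1)).1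
  obtain ⟨a, ha⟩ := (gs_mod (N := (N : ℤ)) (t + 2)).1
  obtain ⟨b, hb⟩ := (gs_mod (N := (N : ℤ)) (t + 2)).2
  have hrec1 : gs N (t + 1 + 2) = N * gs N (t + 1 + 1) - gs N (t + 1) := gs_two (t + 1)
  have hrec2 : gs N (t + 2 + 2) = N * gs N (t + 2 + 1) - gs N (t + 2) := gs_two (t + 2)
  have hmk := gs_markov (N := (N : ℤ)) (t + 2)
  set g0 := gs N (t + 1) with hg0
  set g1 := gs N (t + 2) with hg1
  set g2 := gs N (t + 3) with hg2
  set g3 := gs N (t + 4) with hg3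
  have hrec1' : g2 = N * g1 - g0 := hrec1
  have hrec2' : g3 = N * g2 - g1 := hrec2
  have hmk' : g1 ^ 2 + g2 ^ 2 + (N - 2) = N * g1 * g2 := hmk
  have hb' : g2 - 1 = (N - 2) * b := hb
  obtain ⟨f1, hf1⟩ : ∃ f1 : ℤ, g2 - g0 = (N - 2) * f1 := ⟨b - c, by linear_combination hb' - hc⟩
  obtain ⟨f2, hf2⟩ : ∃ f2 : ℤ, g3 - g1 = (N - 2) * f2 := by
    refine ⟨(N : ℤ) * b + 1 - 2 * a, ?_⟩
    rw [hrec2']
    linear_combination (N : ℤ) * hb' - 2 * ha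
  have hM : (0 : ℤ) < N - 2 := by omega
  have hp1 : g0 * g2 = g1 ^ 2 + (N - 2) := by rw [hrec1']; rw [hrec1'] at hmk'; linear_combination -hmk'
  have hp2 : g1 * g3 = g2 ^ 2 + (N - 2) := by rw [hrec2']; linear_combination -hmk'
  have hdet : g0 * f2 - f1 * g1 = N := by
    have : (N - 2 : ℤ) * (g0 * f2 - f1 * g1) = (N - 2) * N := by
      linear_combination -g0 * hf2 + g1 * hf1 + g0 * hrec2' + N * hp1 - g1 * hrec1'
    exact mul_left_cancel₀ hM.ne' this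
  refine h.image g0 f1 g1 f2 (-(e : ℤ) * g1) (-(e : ℤ) * g2) (by linarith) ?_
  rintro ⟨p, q⟩ ⟨h1, h2, h3⟩
  simp only at h1 h2 h3
  have h2' : q ≤ ((N : ℤ) - 2) * p := h2
  have h3' : ((N : ℤ) - 2) * p * g1 ^ 2 + q * (g2 ^ 2 - g1 ^ 2) ≤ (N - 2) * e * (g1 * g2) := h3
  -- `l = q - m2 * g1`
  set m1 : ℤ := g0 * p + f1 * q + -(e : ℤ) * g1 with hm1
  set m2 : ℤ := g1 * p + f2 * q + -(e : ℤ) * g2 with hm2
  have k1 : ((N : ℤ) - 2) * m1 = ((N : ℤ) - 2) * g0 * p + (g2 - g0) * q - (N - 2) * e * g1 := by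
    rw [hm1, hf1]; ring
  have k2 : ((N : ℤ) - 2) * m2 = ((N : ℤ) - 2) * g1 * p + (g3 - g1) * q - (N - 2) * e * g2 := by
    rw [hm2, hf2]; ring
  have k3 : ((N : ℤ) - 2) * ((q - m2 * g1)) =
      ((N : ℤ) - 2) * e * (g1 * g2) - ((N - 2) * p * g1 ^ 2 + q * (g2 ^ 2 - g1 ^ 2)) := by
    linear_combination (-g1) * k2 - q * hp2
  have hl0 : 0 ≤ q - m2 * g1 := by
    have : 0 ≤ ((N : ℤ) - 2) * (q - m2 * g1) := by rw [k3]; linarith
    exact nonneg_of_mul_nonneg_right this hM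
  have hdeg : N * (q - m2 * g1) + m1 * g1 + m2 * g2 = ((N : ℤ) - 2) * e := by
    apply mul_left_cancel₀ hM.ne'
    linear_combination N * k3 + g1 * k1 + g2 * k2 + ((N : ℤ) - 2) * p * g1 * hrec1' + q * g2 * hrec2' -
      q * g1 * hrec1' - ((N : ℤ) - 2) * e * hmk'
  have h4 : m1 * g2 + (q - m2 * g1) = (N - 2) * p - q := by
    apply mul_left_cancel₀ hM.ne'
    linear_combination g2 * k1 + k3 + (((N : ℤ) - 2) * p - q) * hp1
  exact ⟨q - m2 * g1, hl0, hdeg, by show 0 ≤ m1 * g2 + (q - m2 * g1); rw [h4]; linarith,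
    by show 0 ≤ m2 * g1 + (q - m2 * g1); linarith⟩

theorem Reg_sub_Q3 {N : ℕ} (hN : 3 ≤ N) {ω : ℝ} {e t : ℕ} {E : ℝ}
    (h1 : ((gs N (t + 1) : ℤ) : ℝ) ≤ ω * (gs N t : ℤ)) (h2 : E * ω * (gs N t : ℤ) ≤ e * (gs N (t + 1) : ℤ)) :
    Reg 0 (E * ω) (1 / (N - 2)) ((ω ^ 2 - 1) / (N - 2)) ⊆ Q3 N t e := by
  rintro ⟨a, b⟩ ⟨hb, hl, hr⟩
  simp only at hb hl hr
  have hN' : (3 : ℤ) ≤ N := by exact_mod_cast hN
  have hg := gs_pos hN' t
  have hg' := gs_pos hN' (t + 1)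
  have hM : (0 : ℝ) < (N : ℝ) - 2 := by
    have : (3 : ℝ) ≤ N := by exact_mod_cast hN
    linarith
  have hbR : (0 : ℝ) ≤ b := by exact_mod_cast hb
  have hab : (b : ℝ) ≤ ((N : ℝ) - 2) * a := by
    have : ((N : ℝ) - 2) * (0 + 1 / ((N : ℝ) - 2) * b) ≤ ((N : ℝ) - 2) * a :=
      mul_le_mul_of_nonneg_left hl hM.le
    have e1 : ((N : ℝ) - 2) * (0 + 1 / ((N : ℝ) - 2) * b) = b := by field_simp; ring
    rwa [e1] at this
  have hr' : ((N : ℝ) - 2) * a ≤ ((N : ℝ) - 2) * (E * ω) - (ω ^ 2 - 1) * b := by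
    have : ((N : ℝ) - 2) * a ≤ ((N : ℝ) - 2) * (E * ω - (ω ^ 2 - 1) / ((N : ℝ) - 2) * b) :=
      mul_le_mul_of_nonneg_left hr hM.le
    have e1 : ((N : ℝ) - 2) * (E * ω - (ω ^ 2 - 1) / ((N : ℝ) - 2) * b) =
        ((N : ℝ) - 2) * (E * ω) - (ω ^ 2 - 1) * b := by field_simp
    rwa [e1] at this
  refine ⟨hb, ?_, ?_⟩
  · have : (b : ℝ) ≤ (((N : ℤ) - 2) * a : ℤ) := by push_cast; exact hab
    exact_mod_cast this
  · set g : ℤ := gs N t
    set g' : ℤ := gs N (t + 1)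
    have hgR : (0 : ℝ) < g := by exact_mod_cast hg
    have hgR' : (0 : ℝ) < g' := by exact_mod_cast hg'
    have h4 : ((N : ℝ) - 2) * a * g ^ 2 + b * ((g' : ℝ) ^ 2 - g ^ 2) ≤ ((N : ℝ) - 2) * e * (g * g') := by
      have h5 : ((N : ℝ) - 2) * a * g ^ 2 ≤ (((N : ℝ) - 2) * (E * ω) - (ω ^ 2 - 1) * b) * g ^ 2 :=
        mul_le_mul_of_nonneg_right hr' (by positivity)
      have h6 : (g' : ℝ) ^ 2 ≤ ω ^ 2 * g ^ 2 := by nlinarith
      have h7 : b * (g' : ℝ) ^ 2 ≤ b * (ω ^ 2 * g ^ 2) := mul_le_mul_of_nonneg_left h6 hbR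
      have h8 : ((N : ℝ) - 2) * g * (E * ω * g) ≤ ((N : ℝ) - 2) * g * (e * g') :=
        mul_le_mul_of_nonneg_left h2 (by positivity)
      nlinarith
    exact_mod_cast h4

/-- from the limit triangle to the weighted plane -/
theorem AS.limit {n : ℕ} {M : ℕ} (hM : 1 ≤ M) {ω : ℝ} (hω : 2 ≤ ω) (hω2 : ω ^ 2 + 1 = (M + 2) * ω)
    {c : ℝ} (hc : 0 < c) (h : AS n (c * ω) (1 / M) ((ω ^ 2 - 1) / M)) : AS n (M * c) 0 M := by
  intro η hη
  have hMR : (1 : ℝ) ≤ M := by exact_mod_cast hM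
  have hM0 : (0 : ℝ) < M := by linarith
  set η1 : ℝ := η / (4 * M) with hη1
  have hη10 : 0 < η1 := by positivity
  set κ : ℝ := η1 / (c + η1) with hκ
  have hκ0 : 0 < κ := by positivity
  have hκc : (c + η1) * (1 + κ) = c + 2 * η1 := by
    rw [hκ]; field_simp; ring
  have hN : 3 ≤ M + 2 := by omega
  obtain ⟨t, ht, ht1, ht2⟩ := gs_ratio (N := M + 2) hN hω (by push_cast; exact hω2) (e := 1)
    (E := 1 + κ) (by linarith) (by linarith)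
  obtain ⟨t', rfl⟩ : ∃ t', t = t' + 2 := ⟨t - 2, by omega⟩
  obtain ⟨s1, hs1⟩ := h (η1 * ω) (by positivity)
  obtain ⟨s2, hs2⟩ := exists_large (η := η / 2) (c := 1 + M) (by positivity)
  refine ⟨max s1 s2, fun s hs α => ?_⟩
  have hs1' := hs1 s ((le_max_left _ _).trans hs) 0
  have hs2' := hs2 s ((le_max_right _ _).trans hs)
  have hs0 : (0 : ℝ) ≤ s := Nat.cast_nonneg s
  set e : ℕ := ⌈(c + 2 * η1) * s⌉₊ with he
  have he1 : (c + 2 * η1) * s ≤ e := Nat.le_ceil _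
  have he2 : (e : ℝ) ≤ (c + 2 * η1) * s + 1 := (Nat.ceil_lt_add_one (by positivity)).le
  have hg' : (0 : ℝ) ≤ (gs ((M + 2 : ℕ) : ℤ) (t' + 2 + 1) : ℤ) := by
    have : (3 : ℤ) ≤ ((M + 2 : ℕ) : ℤ) := by exact_mod_cast hN
    have := gs_pos this (t' + 2 + 1)
    exact_mod_cast this.le
  have h3 : Rk (fun _ : Fin n => s) (WP (M + 2) e) (n * (s + 1).choose 2) := by
    apply Rk_Q3 hN t' e
    refine hs1'.mono ?_
    have h4 := Reg_sub_Q3 hN (ω := ω) (e := e) (t := t' + 2) (E := (c + η1) * s) ht1 (by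
      have h5 : (c + η1) * s * (ω * 1 * (gs ((M + 2 : ℕ) : ℤ) (t' + 2) : ℤ)) ≤
          (c + η1) * s * ((1 + κ) * (gs ((M + 2 : ℕ) : ℤ) (t' + 2 + 1) : ℤ)) :=
        mul_le_mul_of_nonneg_left ht2 (by positivity)
      have h6 : (c + η1) * s * ((1 + κ) * (gs ((M + 2 : ℕ) : ℤ) (t' + 2 + 1) : ℤ)) =
          (c + 2 * η1) * s * (gs ((M + 2 : ℕ) : ℤ) (t' + 2 + 1) : ℤ) := by
        rw [← hκc]; ring
      have h7 := mul_le_mul_of_nonneg_right he1 hg'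
      calc (c + η1) * s * ω * (gs ((M + 2 : ℕ) : ℤ) (t' + 2) : ℤ) =
          (c + η1) * s * (ω * 1 * (gs ((M + 2 : ℕ) : ℤ) (t' + 2) : ℤ)) := by ring
        _ ≤ _ := by rw [h6] at h5; exact h5.trans h7)
    have e1 : ((M + 2 : ℕ) : ℝ) - 2 = M := by push_cast; ring
    rw [e1] at h4
    refine Set.Subset.trans (Reg_mono le_rfl ?_) h4
    have e2 : 0 + (c * ω + η1 * ω) * s = (c + η1) * s * ω := by ring
    rw [e2]
  refine h3.image 1 0 0 1 ⌈α⌉ 0 (by norm_num) ?_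
  rintro ⟨a, b⟩ ⟨ha, hb, hab⟩
  simp only at ha hb hab
  have haR : (0 : ℝ) ≤ a := by exact_mod_cast ha
  have habR : (a : ℝ) + M * b ≤ M * e := by
    have : a + (M : ℤ) * b ≤ M * e := by
      push_cast at hab; linarith
    exact_mod_cast this
  refine ⟨by simpa using hb, ?_, ?_⟩
  · simp only
    push_cast
    have := Int.le_ceil α
    linarith
  · simp only
    push_cast
    have h5 := (Int.ceil_lt_add_one α).le
    have h6 : (M : ℝ) * e ≤ M * ((c + 2 * η1) * s + 1) := mul_le_mul_of_nonneg_left he2 hM0.le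
    have h7 : (M : ℝ) * ((c + 2 * η1) * s + 1) = M * c * s + η / 2 * s + M := by
      rw [hη1]; field_simp; ring
    linarith

theorem AS.shear {n : ℕ} {B μ ν : ℝ} (k : ℤ) (h : AS n B (μ + k) (ν - k)) : AS n B μ ν := by
  intro η hη
  obtain ⟨s0, hs0⟩ := h η hη
  refine ⟨s0, fun s hs α => (hs0 s hs α).image 1 (-k) 0 1 0 0 (by norm_num) ?_⟩
  rintro ⟨a, b⟩ ⟨h1, h2, h3⟩
  simp only at h1 h2 h3
  refine ⟨by simpa using h1, ?_, ?_⟩
  · simp only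
    push_cast
    linarith
  · simp only
    push_cast
    linarith

end Pool.Agent.TH880.NB
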